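import Mathlib
import Pool.Agent.H86.PG.Main

set_option autoImplicit false

namespace Pool.Agent.H67.PG

open Subgroup Pool.Agent.H86.PG

variable {G : Type*} [Group G]

/-- if `a` of finite order normalises `K`, then `K` has finite index in any subgroup contained
in the subgroup generated by `a` and `K` -/
lemma relIndex_ne_zero_of_normalizes {a : G} {K : Subgroup G} {n : ℕ} (hn : 0 < n)
    (han : a ^ n = 1) (hconj : ∀ k ∈ K, a⁻¹ * k * a ∈ K) {L : Subgroup G}
    (hL : L ≤ closure (insert a (K : Set G))) : K.relIndex L ≠ 0 := by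
  -- every element of L is k * a^i with i < n
  have hconj' : ∀ m : ℕ, ∀ k ∈ K, (a ^ m)⁻¹ * k * a ^ m ∈ K := by
    intro m
    induction m with
    | zero => intro k hk; simpa using hk
    | succ m ih =>
      intro k hk
      have h1 := ih _ (hconj k hk)
      have h2 : (a ^ (m + 1))⁻¹ * k * a ^ (m + 1) = (a ^ m)⁻¹ * (a⁻¹ * k * a) * a ^ m := by
        rw [pow_succ']
        group
      rw [h2]; exact h1
  have hform : ∀ g ∈ closure (insert a (K : Set G)), ∃ i : ℕ, ∃ k ∈ K, g = a ^ i * k := by
    intro g hg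
    induction hg using Subgroup.closure_induction with
    | mem x hx =>
      rcases hx with rfl | hx
      · exact ⟨1, 1, one_mem _, by simp⟩
      · exact ⟨0, x, hx, by simp⟩
    | one => exact ⟨0, 1, one_mem _, by simp⟩
    | mul x y _ _ hx hy =>
      obtain ⟨i, k, hk, rfl⟩ := hx
      obtain ⟨j, l, hl, rfl⟩ := hy
      refine ⟨i + j, ((a ^ j)⁻¹ * k * a ^ j) * l, mul_mem (hconj' j k hk) hl, ?_⟩
      rw [pow_add]
      group
    | inv x _ hx =>
      obtain ⟨i, k, hk, rfl⟩ := hx
      -- (a^i k)⁻¹ = k⁻¹ a^{-i} ; a^{-i} = a^{j}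
      have hj : ∃ j : ℕ, a ^ i * a ^ j = 1 := by
        refine ⟨(n - 1) * i, ?_⟩
        rw [← pow_add]
        have : i + (n - 1) * i = n * i := by
          obtain ⟨m, rfl⟩ : ∃ m, n = m + 1 := ⟨n - 1, by omega⟩
          simp only [Nat.add_sub_cancel]
          ring
        rw [this, pow_mul, han, one_pow]
      obtain ⟨j, hj⟩ := hj
      have hinv : (a ^ i)⁻¹ = a ^ j := inv_eq_of_mul_eq_one_right hj
      refine ⟨j, (a ^ j)⁻¹ * k⁻¹ * a ^ j, hconj' j _ (inv_mem hk), ?_⟩
      rw [mul_inv_rev, hinv]
      group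
  have hfin : Finite (L ⧸ K.subgroupOf L) := by
    let R : (L ⧸ K.subgroupOf L) → Set (Fin n) := fun q =>
      {i | ∃ l : L, (QuotientGroup.mk l : L ⧸ K.subgroupOf L) = q ∧ ∃ k ∈ K, (l : G) = a ^ (i : ℕ) * k}
    have hne : ∀ q, (R q).Nonempty := by
      intro q
      induction q using QuotientGroup.induction_on with
      | H l =>
        obtain ⟨i, k, hk, hl⟩ := hform l (hL l.2)
        refine ⟨⟨i % n, Nat.mod_lt _ hn⟩, l, rfl, k, hk, ?_⟩
        have h3 : a ^ i = a ^ (i % n) := by
          conv_lhs => rw [← Nat.mod_add_div i n, pow_add, pow_mul, han, one_pow, mul_one]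
        rw [hl, h3]
    choose f hf using hne
    refine Finite.of_injective f ?_
    intro q₁ q₂ h
    obtain ⟨l₁, rfl, k₁, hk₁, h₁⟩ := hf q₁
    obtain ⟨l₂, rfl, k₂, hk₂, h₂⟩ := hf q₂
    rw [QuotientGroup.eq]
    rw [Subgroup.mem_subgroupOf]
    have : ((l₁⁻¹ * l₂ : L) : G) = k₁⁻¹ * k₂ := by
      rw [Subgroup.coe_mul, Subgroup.coe_inv, h₁, h₂, h]
      group
    rw [this]
    exact mul_mem (inv_mem hk₁) hk₂
  rw [Subgroup.relIndex]
  exact Subgroup.index_ne_zero_of_finite

/-- finite index from a chain -/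
lemma index_ne_zero_of_relIndex {K L : Subgroup G} (h1 : K.relIndex L ≠ 0) (h2 : L.index ≠ 0) :
    K.index ≠ 0 := by
  have h3 : (K ⊓ L).relIndex L * L.index = (K ⊓ L).index := relIndex_mul_index inf_le_right
  have h4 : (K ⊓ L).relIndex L = K.relIndex L := inf_relIndex_right K L
  have h5 : (K ⊓ L).index ≠ 0 := by
    rw [← h3, h4]
    exact Nat.mul_ne_zero h1 h2
  intro h
  have := index_dvd_of_le (inf_le_left : K ⊓ L ≤ K)
  rw [h, zero_dvd_iff] at this
  exact h5 this

variable [Infinite G] {p : ℕ}

/-- the basic configuration: `a` of order `p`, a normal subgroup of finite index inside `M` and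
without nontrivial elements commuting with `a` -/
lemma config [Fact p.Prime] (hG : IsPGroup p G) (hRF : RF G)
    (hfin : ∀ H : Subgroup G, (H : Set G).Finite ∨ H.index ≠ 0) {M : Subgroup G}
    (hM : M.index ≠ 0) :
    ∃ (a : G) (N : Subgroup G), orderOf a = p ∧ N.Normal ∧ N.index ≠ 0 ∧ N ≤ M ∧
      ∀ z ∈ N, z * a = a * z → z = 1 := by
  obtain ⟨a, hap, ha⟩ := exists_elem hG hRF hfin
  obtain ⟨N, hN, hi, hav⟩ := exists_avoid (p := p) hRF ha
  haveI : M.FiniteIndex := ⟨hM⟩
  refine ⟨a, N ⊓ M.normalCore, hap, inferInstance,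
    index_inf_ne_zero hi (FiniteIndex.index_ne_zero (H := M.normalCore)),
    inf_le_right.trans (normalCore_le M), fun z hz => hav z hz.1⟩

/-- every subgroup of finite index contains a subgroup of finite index generated by `p`
elements of order `p` -/
lemma deep_order [Fact p.Prime] (hG : IsPGroup p G) (hRF : RF G)
    (hfin : ∀ H : Subgroup G, (H : Set G).Finite ∨ H.index ≠ 0) {M : Subgroup G}
    (hM : M.index ≠ 0) :
    ∃ z : Fin p → G, (∀ i, z i ∈ M) ∧ (∀ i, orderOf (z i) = p) ∧
      (closure (Set.range z)).index ≠ 0 := by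
  obtain ⟨a, N, hap, hN, hNi, hNM, hav⟩ := config hG hRF hfin hM
  obtain ⟨y, hy, hy1⟩ := exists_ne_one_of_infinite (infinite_of_index hNi)
  obtain ⟨k, hk⟩ := exists_pow_orderOf hG hy1
  set x : G := y ^ k with hx
  have hxN : x ∈ N := pow_mem hy k
  have hp : p.Prime := Fact.out
  have hx1 : x ≠ 1 := by
    intro h
    rw [h, orderOf_one] at hk
    exact hp.one_lt.ne hk
  have ha1 : a ^ p = 1 := by rw [← hap]; exact pow_orderOf_eq_one a
  -- the subgroup generated by a and x is infinite
  have hinf : ((closure {a, x} : Subgroup G) : Set G).Infinite := by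
    intro hf
    obtain ⟨z, hzN, hz1, hza⟩ := exists_commute_of_finite hG hN hf
      (subset_closure (Or.inl rfl)) (subset_closure (Or.inr rfl)) hxN hx1
    exact hz1 (hav z hzN hza)
  have hLi : (closure {a, x}).index ≠ 0 := (hfin _).resolve_left hinf
  let z : Fin p → G := fun i => (a ^ (i : ℕ))⁻¹ * x * a ^ (i : ℕ)
  refine ⟨z, ?_, ?_, ?_⟩
  · intro i
    apply hNM
    have := hN.conj_mem x hxN (a ^ (i : ℕ))⁻¹
    simpa [z] using this
  · intro i
    have h1 : z i = (MulAut.conj (a ^ (i : ℕ))⁻¹) x := by
      simp only [z]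
      rw [MulAut.conj_apply, inv_inv]
    rw [h1, MulEquiv.orderOf_eq, hk]
  · set K := closure (Set.range z) with hK
    have hconj : ∀ k ∈ K, a⁻¹ * k * a ∈ K := by
      have hgen : ∀ i : Fin p, a⁻¹ * z i * a ∈ K := by
        intro i
        have h2 : a⁻¹ * z i * a = (a ^ ((i : ℕ) + 1))⁻¹ * x * a ^ ((i : ℕ) + 1) := by
          simp only [z]
          rw [pow_succ]
          group
        have h3 : a ^ ((i : ℕ) + 1) = a ^ (((i : ℕ) + 1) % p) := by
          conv_lhs => rw [← Nat.mod_add_div ((i : ℕ) + 1) p, pow_add, pow_mul, ha1, one_pow,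
            mul_one]
        rw [h2, h3]
        exact subset_closure ⟨⟨((i : ℕ) + 1) % p, Nat.mod_lt _ hp.pos⟩, rfl⟩
      intro k hk'
      induction hk' using Subgroup.closure_induction with
      | mem y hy =>
        obtain ⟨i, rfl⟩ := hy
        exact hgen i
      | one => simp
      | mul u v _ _ hu hv =>
        have : a⁻¹ * (u * v) * a = (a⁻¹ * u * a) * (a⁻¹ * v * a) := by group
        rw [this]; exact mul_mem hu hv
      | inv u _ hu =>
        have : a⁻¹ * u⁻¹ * a = (a⁻¹ * u * a)⁻¹ := by group
        rw [this]; exact inv_mem hu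
    refine index_ne_zero_of_relIndex (L := closure {a, x}) ?_ hLi
    refine relIndex_ne_zero_of_normalizes hp.pos ha1 hconj ?_
    rw [closure_le]
    rintro y (rfl | rfl)
    · exact subset_closure (Or.inl rfl)
    · refine subset_closure (Or.inr ?_)
      have : z ⟨0, hp.pos⟩ ∈ K := subset_closure ⟨_, rfl⟩
      simpa [z] using this

omit [Infinite G] in
/-- product of the conjugates -/
lemma prod_conj (a z : G) (n : ℕ) :
    (a * z) ^ n = a ^ n * ((List.range n).reverse.map fun i => (a ^ i)⁻¹ * z * a ^ i).prod := by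
  induction n with
  | zero => simp
  | succ n ih =>
    rw [pow_succ', ih, List.range_succ, List.reverse_append, List.map_append, List.prod_append,
      pow_succ']
    simp only [List.reverse_cons, List.reverse_nil, List.nil_append, List.map_cons, List.map_nil,
      List.prod_cons, List.prod_nil, mul_one]
    group

/-- every subgroup of finite index contains a subgroup of finite index generated by `p - 1`
elements -/
lemma deep [Fact p.Prime] (hG : IsPGroup p G) (hRF : RF G)
    (hfin : ∀ H : Subgroup G, (H : Set G).Finite ∨ H.index ≠ 0) {M : Subgroup G}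
    (hM : M.index ≠ 0) :
    ∃ z : Fin (p - 1) → G, (∀ i, z i ∈ M) ∧ (closure (Set.range z)).index ≠ 0 := by
  obtain ⟨a, N, hap, hN, hNi, hNM, hav⟩ := config hG hRF hfin hM
  obtain ⟨x, hx, hx1⟩ := exists_ne_one_of_infinite (infinite_of_index hNi)
  have hp : p.Prime := Fact.out
  have ha1 : a ^ p = 1 := by rw [← hap]; exact pow_orderOf_eq_one a
  have hinf := infinite_closure hG hN hav hx hx1
  have hLi : (closure {a, x⁻¹ * a * x}).index ≠ 0 := (hfin _).resolve_left hinf
  set b : G := x⁻¹ * a * x with hb
  set y : G := a⁻¹ * b with hy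
  have hyN : y ∈ N := by
    have h1 : a⁻¹ * x⁻¹ * a ∈ N := by
      have := hN.conj_mem x⁻¹ (inv_mem hx) a⁻¹
      simpa using this
    have h2 := mul_mem h1 hx
    simpa [hy, hb, mul_assoc] using h2
  let c : ℕ → G := fun i => (a ^ i)⁻¹ * y * a ^ i
  have hbp : b ^ p = 1 := by
    have h1 : b = (MulAut.conj x⁻¹) a := by
      rw [MulAut.conj_apply, inv_inv]
    rw [h1, ← map_pow, ha1, map_one]
  have hprod : ((List.range p).reverse.map c).prod = 1 := by
    have h1 := prod_conj a y p
    rw [ha1, one_mul] at h1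
    have h2 : a * y = b := by rw [hy]; group
    rw [h2, hbp] at h1
    exact h1.symm
  let z : Fin (p - 1) → G := fun i => c i
  refine ⟨z, ?_, ?_⟩
  · intro i
    apply hNM
    have := hN.conj_mem y hyN (a ^ (i : ℕ))⁻¹
    simpa [z, c] using this
  · set K := closure (Set.range z) with hK
    have hcK : ∀ i, i < p - 1 → c i ∈ K := fun i hi => subset_closure ⟨⟨i, hi⟩, rfl⟩
    have hlast : c (p - 1) ∈ K := by
      obtain ⟨m, hm⟩ : ∃ m, p = m + 1 := ⟨p - 1, by have := hp.pos; omega⟩
      have hm' : p - 1 = m := by omega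
      rw [hm, List.range_succ, List.reverse_append, List.map_append, List.prod_append] at hprod
      simp only [List.reverse_cons, List.reverse_nil, List.nil_append, List.map_cons,
        List.map_nil, List.prod_cons, List.prod_nil, mul_one] at hprod
      rw [hm']
      have h3 : ((List.range m).reverse.map c).prod ∈ K := by
        apply Subgroup.list_prod_mem
        intro w hw
        rw [List.mem_map] at hw
        obtain ⟨i, hi, rfl⟩ := hw
        rw [List.mem_reverse, List.mem_range] at hi
        exact hcK i (by omega)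
      rw [eq_inv_of_mul_eq_one_left hprod]
      exact inv_mem h3
    have hc : ∀ i, i < p → c i ∈ K := by
      intro i hi
      rcases Nat.lt_or_ge i (p - 1) with h | h
      · exact hcK i h
      · have : i = p - 1 := by omega
        rw [this]; exact hlast
    have hconj : ∀ k ∈ K, a⁻¹ * k * a ∈ K := by
      intro k hk'
      induction hk' using Subgroup.closure_induction with
      | mem w hw =>
        obtain ⟨i, rfl⟩ := hw
        have h2 : a⁻¹ * z i * a = c ((i : ℕ) + 1) := by
          simp only [z, c]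
          rw [pow_succ]
          group
        rw [h2]
        exact hc _ (by have := i.2; omega)
      | one => simp
      | mul u v _ _ hu hv =>
        have : a⁻¹ * (u * v) * a = (a⁻¹ * u * a) * (a⁻¹ * v * a) := by group
        rw [this]; exact mul_mem hu hv
      | inv u _ hu =>
        have : a⁻¹ * u⁻¹ * a = (a⁻¹ * u * a)⁻¹ := by group
        rw [this]; exact inv_mem hu
    refine index_ne_zero_of_relIndex (L := closure {a, b}) ?_ hLi
    refine relIndex_ne_zero_of_normalizes hp.pos ha1 hconj ?_
    rw [closure_le]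
    have hy0 : y ∈ K := by
      have := hc 0 hp.pos
      simpa [c] using this
    rintro w (rfl | rfl)
    · exact subset_closure (Or.inl rfl)
    · have h4 : b = a * y := by rw [hy]; group
      have h5 : a * y ∈ closure (insert a (K : Set G)) :=
        mul_mem (subset_closure (Or.inl rfl)) (subset_closure (Or.inr hy0))
      rw [← h4] at h5
      exact h5

end Pool.Agent.H67.PG
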