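import Mathlib
import Pool.Agent.H86.PG.Main

set_option autoImplicit false

namespace Pool.Agent.H67.PG

open Subgroup Pool.Agent.H86.PG

variable {G : Type*} [Group G]

/-- a finite subgroup of a p-group which meets the normal subgroup `N` nontrivially contains a
central element of order `p` lying in `N` -/
lemma exists_central_of_finite {p : ℕ} [Fact p.Prime] (hG : IsPGroup p G) {K N : Subgroup G}
    (hN : N.Normal) (hK : (K : Set G).Finite) {g : G} (hg : g ∈ K) (hgN : g ∈ N)
    (hg1 : g ≠ 1) : ∃ z ∈ N, z ∈ K ∧ orderOf z = p ∧ ∀ a ∈ K, z * a = a * z := by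
  have : Finite K := hK
  have hKp : IsPGroup p K := hG.to_subgroup K
  let M : Subgroup K := N.subgroupOf K
  have : M.Normal := Subgroup.Normal.subgroupOf hN K
  have hMne : M ≠ ⊥ := by
    intro h
    have : (⟨g, hg⟩ : K) ∈ M := by
      rw [Subgroup.mem_subgroupOf]; exact hgN
    rw [h, Subgroup.mem_bot] at this
    exact hg1 (congrArg Subtype.val this)
  have : Nontrivial M := (Subgroup.nontrivial_iff_ne_bot M).2 hMne
  have hMp : IsPGroup p M := hKp.to_subgroup M
  have hdvd : p ∣ Nat.card M := by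
    obtain ⟨n, hn⟩ := IsPGroup.iff_card.1 hMp
    have : n ≠ 0 := by
      rintro rfl
      rw [pow_zero] at hn
      exact absurd hn (Finite.one_lt_card (α := M)).ne'
    rw [hn]; exact dvd_pow_self p this
  have hconj : IsPGroup p (ConjAct K) := hKp.of_equiv ConjAct.toConjAct
  have h1 : (1 : M) ∈ MulAction.fixedPoints (ConjAct K) M := by
    intro k; exact smul_one k
  obtain ⟨z, hz, hz1⟩ :=
    hconj.exists_fixed_point_of_prime_dvd_card_of_fixed_point M hdvd h1
  have hzN : ((z : K) : G) ∈ N := Subgroup.mem_subgroupOf.1 z.2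
  have hzK : ((z : K) : G) ∈ K := (z : K).2
  have hzne : ((z : K) : G) ≠ 1 := by
    intro h
    apply hz1
    ext
    simpa using h.symm
  have hcomm : ∀ a ∈ K, ((z : K) : G) * a = a * ((z : K) : G) := by
    intro a ha
    have h2 := hz (ConjAct.toConjAct ⟨a, ha⟩)
    have h3 : (⟨a, ha⟩ : K) * (z : K) * (⟨a, ha⟩ : K)⁻¹ = (z : K) := by
      have := congrArg (Subtype.val : M → K) h2
      rw [ConjAct.Subgroup.val_conj_smul, ConjAct.smul_def] at this
      simpa using this
    have h4 := congrArg (Subtype.val : K → G) h3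
    simp only [Subgroup.coe_mul, Subgroup.coe_inv] at h4
    have h5 : a * ((z : K) : G) = ((z : K) : G) * a := by
      rw [mul_inv_eq_iff_eq_mul] at h4
      exact h4
    exact h5.symm
  obtain ⟨k, hk⟩ := exists_pow_orderOf hG hzne
  refine ⟨((z : K) : G) ^ k, pow_mem hzN k, pow_mem hzK k, hk, ?_⟩
  intro a ha
  exact ((show Commute ((z : K) : G) a from hcomm a ha).pow_left k).eq

/-- adjoining a commuting element -/
def adjoin (E : Subgroup G) (c : G) (hc : ∀ e ∈ E, c * e = e * c) : Subgroup G where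
  carrier := {x | ∃ e ∈ E, ∃ i : ℤ, x = e * c ^ i}
  one_mem' := ⟨1, one_mem _, 0, by simp⟩
  mul_mem' := by
    rintro _ _ ⟨e, he, i, rfl⟩ ⟨f, hf, j, rfl⟩
    refine ⟨e * f, mul_mem he hf, i + j, ?_⟩
    have h1 : c ^ i * f = f * c ^ i := ((show Commute c f from hc f hf).zpow_left i).eq
    rw [zpow_add, mul_assoc e, ← mul_assoc (c ^ i), h1]
    simp only [mul_assoc]
  inv_mem' := by
    rintro _ ⟨e, he, i, rfl⟩
    refine ⟨e⁻¹, inv_mem he, -i, ?_⟩
    have h1 : c ^ (-i) * e⁻¹ = e⁻¹ * c ^ (-i) :=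
      ((show Commute c e⁻¹ from hc _ (inv_mem he)).zpow_left (-i)).eq
    rw [mul_inv_rev, ← zpow_neg, h1]

/-- an infinite locally finite subgroup of a residually finite p-group contains an infinite
elementary abelian subgroup -/
theorem exists_elementary {p : ℕ} [Fact p.Prime] (hG : IsPGroup p G) (hRF : RF G)
    {H : Subgroup G} (hH : (H : Set G).Infinite)
    (hloc : ∀ K : Subgroup G, K ≤ H → K.FG → (K : Set G).Finite) :
    ∃ E : Subgroup G, E ≤ H ∧ (E : Set G).Infinite ∧ (∀ x ∈ E, ∀ y ∈ E, x * y = y * x) ∧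
      ∀ x ∈ E, x ^ p = 1 := by
  let S : Set (Subgroup G) := {E | E ≤ H ∧ (∀ x ∈ E, ∀ y ∈ E, x * y = y * x) ∧
      ∀ x ∈ E, x ^ p = 1}
  have hbot : (⊥ : Subgroup G) ∈ S := by
    refine ⟨bot_le, ?_, ?_⟩
    · intro x hx y hy
      rw [Subgroup.mem_bot] at hx hy
      rw [hx, hy]
    · intro x hx
      rw [Subgroup.mem_bot] at hx
      rw [hx, one_pow]
  obtain ⟨E, hbE, hE⟩ := zorn_le_nonempty₀ S (by
    intro C hCS hC y hy
    have hdir : DirectedOn (· ≤ ·) C := hC.directedOn
    have hne : C.Nonempty := ⟨y, hy⟩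
    refine ⟨sSup C, ⟨?_, ?_, ?_⟩, fun z hz => le_sSup hz⟩
    · exact sSup_le fun E hE => (hCS hE).1
    · intro a ha b hb
      rw [Subgroup.mem_sSup_of_directedOn hne hdir] at ha hb
      obtain ⟨E₁, hE₁, ha⟩ := ha
      obtain ⟨E₂, hE₂, hb⟩ := hb
      rcases hC.total hE₁ hE₂ with h | h
      · exact (hCS hE₂).2.1 a (h ha) b hb
      · exact (hCS hE₁).2.1 a ha b (h hb)
    · intro a ha
      rw [Subgroup.mem_sSup_of_directedOn hne hdir] at ha
      obtain ⟨E₁, hE₁, ha⟩ := ha
      exact (hCS hE₁).2.2 a ha) ⊥ hbot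
  have hES : E ∈ S := hE.prop
  refine ⟨E, hES.1, ?_, hES.2.1, hES.2.2⟩
  intro hfinE
  obtain ⟨N, hN, hNi, hav⟩ := hRF.avoid hfinE
  -- H ∩ N is infinite
  have hHN : ((H ⊓ N : Subgroup G) : Set G).Infinite := by
    intro hf
    apply hH
    have h1 : Finite (H ⊓ N : Subgroup G) := hf
    have h2 : (N.subgroupOf H).index ≠ 0 := by
      intro h
      apply hNi
      have h3 : N.relIndex H = 0 := h
      have := Subgroup.relIndex_dvd_index_of_normal N H
      rw [h3, zero_dvd_iff] at this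
      exact this
    have h3 : Finite (N.subgroupOf H) := by
      refine Finite.of_injective (fun x : N.subgroupOf H =>
        (⟨((x : H) : G), ⟨(x : H).2, Subgroup.mem_subgroupOf.1 x.2⟩⟩ : (H ⊓ N : Subgroup G))) ?_
      intro x y hxy
      have := congrArg (Subtype.val : (H ⊓ N : Subgroup G) → G) hxy
      exact Subtype.ext (Subtype.ext this)
    have h4 : Nat.card H ≠ 0 := by
      rw [← (N.subgroupOf H).card_mul_index]
      exact Nat.mul_ne_zero Nat.card_pos.ne' h2
    exact (Nat.finite_of_card_ne_zero h4 : Finite H)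
  obtain ⟨z, hz, hz1⟩ := exists_ne_one_of_infinite hHN
  let K : Subgroup G := closure ((E : Set G) ∪ {z})
  have hKH : K ≤ H := by
    rw [closure_le]
    rintro x (hx | hx)
    · exact hES.1 hx
    · rw [Set.mem_singleton_iff.1 hx]; exact hz.1
  have hKfg : K.FG := by
    rw [Subgroup.fg_iff]
    exact ⟨_, rfl, hfinE.union (Set.finite_singleton z)⟩
  have hKfin := hloc K hKH hKfg
  have hzK : z ∈ K := subset_closure (Or.inr rfl)
  obtain ⟨c, hcN, hcK, hco, hcc⟩ := exists_central_of_finite hG hN hKfin hzK hz.2 hz1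
  have hEK : E ≤ K := fun x hx => subset_closure (Or.inl hx)
  have hcE : ∀ e ∈ E, c * e = e * c := fun e he => hcc e (hEK he)
  have hnew : adjoin E c hcE ∈ S := by
    refine ⟨?_, ?_, ?_⟩
    · rintro _ ⟨e, he, i, rfl⟩
      exact mul_mem (hES.1 he) (zpow_mem (hKH hcK) i)
    · rintro _ ⟨e, he, i, rfl⟩ _ ⟨f, hf, j, rfl⟩
      have h1 : Commute c e := hcE e he
      have h2 : Commute c f := hcE f hf
      have h3 : Commute e f := hES.2.1 e he f hf
      have h4 : Commute (e * c ^ i) (f * c ^ j) :=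
        ((h3.mul_right (h1.symm.zpow_right j))).mul_left
          ((h2.zpow_left i).mul_right ((Commute.refl c).zpow_zpow i j))
      exact h4.eq
    · rintro _ ⟨e, he, i, rfl⟩
      have h1 : Commute e (c ^ i) := ((show Commute c e from hcE e he).symm).zpow_right i
      have h2 : (c ^ i) ^ p = 1 := by
        rw [← zpow_natCast, ← zpow_mul, mul_comm, zpow_mul, zpow_natCast, ← hco,
          pow_orderOf_eq_one, one_zpow]
      rw [h1.mul_pow, hES.2.2 e he, h2, one_mul]
  have hle : E ≤ adjoin E c hcE := fun e he => ⟨e, he, 0, by simp⟩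
  have hge := hE.le_of_ge hnew hle
  have hcmem : c ∈ E := hge ⟨1, one_mem _, 1, by simp⟩
  have hc1 : c ≠ 1 := by
    intro h
    rw [h, orderOf_one] at hco
    exact (Fact.out : p.Prime).one_lt.ne hco
  exact hav c hcmem hc1 hcN

end Pool.Agent.H67.PG
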