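import Mathlib

set_option autoImplicit false

open scoped Pointwise

namespace Pool.Agent.H67.PG

open Subgroup

/-- the augmentation ideal of the group algebra `F_p[G]`, as a subspace: the span of all
`g - 1` -/
noncomputable def Aug (p : ℕ) (G : Type*) [Group G] : Submodule (ZMod p) (MonoidAlgebra (ZMod p) G) :=
  Submodule.span (ZMod p) (Set.range fun g : G => MonoidAlgebra.of (ZMod p) G g - 1)

/-- `growth p G n` is the dimension of `F_p[G] / Δ^n`, where `Δ` is the augmentation ideal -/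
noncomputable def growth (p : ℕ) (G : Type*) [Group G] (n : ℕ) : ℕ :=
  Module.finrank (ZMod p) (MonoidAlgebra (ZMod p) G ⧸ (Aug p G) ^ n)

section span

variable {F A : Type*} [Field F] [Ring A] [Algebra F A]

/-- `M` is spanned by at most `n` elements -/
def Sp (M : Submodule F A) (n : ℕ) : Prop :=
  ∃ s : Finset A, s.card ≤ n ∧ Submodule.span F (s : Set A) = M

lemma Sp.mono {M : Submodule F A} {n m : ℕ} (h : Sp M n) (hnm : n ≤ m) : Sp M m := by
  obtain ⟨s, hs, h⟩ := h
  exact ⟨s, hs.trans hnm, h⟩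

lemma Sp.mul {M N : Submodule F A} {m n : ℕ} (hM : Sp M m) (hN : Sp N n) : Sp (M * N) (m * n) := by
  classical
  obtain ⟨s, hs, rfl⟩ := hM
  obtain ⟨t, ht, rfl⟩ := hN
  refine ⟨s * t, (Finset.card_mul_le).trans (Nat.mul_le_mul hs ht), ?_⟩
  rw [Submodule.span_mul_span, Finset.coe_mul]

lemma Sp.add {M N : Submodule F A} {m n : ℕ} (hM : Sp M m) (hN : Sp N n) : Sp (M + N) (m + n) := by
  classical
  obtain ⟨s, hs, rfl⟩ := hM
  obtain ⟨t, ht, rfl⟩ := hN
  refine ⟨s ∪ t, (Finset.card_union_le _ _).trans (Nat.add_le_add hs ht), ?_⟩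
  rw [Finset.coe_union, Submodule.span_union]
  rfl

lemma Sp.one : Sp (1 : Submodule F A) 1 :=
  ⟨{1}, by simp, by rw [Finset.coe_singleton, Submodule.one_eq_span]⟩

lemma Sp.zero : Sp (0 : Submodule F A) 0 :=
  ⟨∅, by simp, by simp⟩

lemma Sp.pow {M : Submodule F A} {m : ℕ} (hM : Sp M m) (i : ℕ) : Sp (M ^ i) (m ^ i) := by
  induction i with
  | zero => simpa using (Sp.one : Sp (1 : Submodule F A) 1)
  | succ i ih =>
    rw [pow_succ, pow_succ]
    exact ih.mul hM

lemma Sp.sum {M : Submodule F A} {m : ℕ} (hM : Sp M m) (j : ℕ) :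
    Sp (∑ i ∈ Finset.range j, M ^ i) (∑ i ∈ Finset.range j, m ^ i) := by
  induction j with
  | zero => simpa using (Sp.zero : Sp (0 : Submodule F A) 0)
  | succ j ih =>
    rw [Finset.sum_range_succ, Finset.sum_range_succ]
    exact ih.add (hM.pow j)

lemma Sp.range {r : ℕ} (u : Fin r → A) : Sp (Submodule.span F (Set.range u)) r := by
  classical
  refine ⟨Finset.univ.image u, ?_, ?_⟩
  · exact (Finset.card_image_le).trans (by simp)
  · simp

/-- if `W + I` is everything and `W` is spanned by `n` elements, the quotient by `I` has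
dimension at most `n` -/
lemma Sp.finrank {W I : Submodule F A} {n : ℕ} (hW : Sp W n) (h : ⊤ ≤ W + I) :
    Module.Finite F (A ⧸ I) ∧ Module.finrank F (A ⧸ I) ≤ n := by
  classical
  obtain ⟨s, hs, rfl⟩ := hW
  have hspan : Submodule.span F ((s.image I.mkQ : Finset (A ⧸ I)) : Set (A ⧸ I)) = ⊤ := by
    rw [Finset.coe_image, ← Submodule.map_span, eq_top_iff]
    intro x _
    obtain ⟨a, rfl⟩ := I.mkQ_surjective x
    have ha : a ∈ Submodule.span F (s : Set A) + I := h trivial
    rw [Submodule.add_eq_sup, Submodule.mem_sup] at ha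
    obtain ⟨w, hw, i, hi, rfl⟩ := ha
    refine ⟨w, hw, ?_⟩
    rw [map_add]
    have : I.mkQ i = 0 := by
      rw [Submodule.mkQ_apply, Submodule.Quotient.mk_eq_zero]; exact hi
    rw [this, add_zero]
  have hfin : Module.Finite F (A ⧸ I) := ⟨⟨_, hspan⟩⟩
  refine ⟨hfin, ?_⟩
  have h1 : Module.finrank F (A ⧸ I) = Module.finrank F (⊤ : Submodule F (A ⧸ I)) := by
    rw [finrank_top]
  rw [h1, ← hspan]
  refine (finrank_span_finset_le_card _).trans ?_
  exact (Finset.card_image_le).trans hs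

end span

section group

variable {p : ℕ} {G : Type*} [Group G]


lemma span_of_top : Submodule.span (ZMod p) (Set.range (MonoidAlgebra.of (ZMod p) G)) = ⊤ := by
  rw [eq_top_iff]
  intro x _
  induction x using MonoidAlgebra.induction_on with
  | of g => exact Submodule.subset_span ⟨g, rfl⟩
  | add a b ha hb => exact add_mem (ha trivial) (hb trivial)
  | smul r a ha => exact Submodule.smul_mem _ _ (ha trivial)

lemma aug_mul_top : Aug p G * ⊤ ≤ Aug p G := by
  rw [← span_of_top (p := p) (G := G), Aug, Submodule.span_mul_span, Submodule.span_le]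
  rintro _ ⟨_, ⟨g, rfl⟩, _, ⟨h, rfl⟩, rfl⟩
  have : (MonoidAlgebra.of (ZMod p) G g - 1) * MonoidAlgebra.of (ZMod p) G h =
      (MonoidAlgebra.of (ZMod p) G (g * h) - 1) - (MonoidAlgebra.of (ZMod p) G h - 1) := by
    rw [sub_mul, one_mul, map_mul]; abel
  simp only [SetLike.mem_coe]
  change (MonoidAlgebra.of (ZMod p) G g - 1) * MonoidAlgebra.of (ZMod p) G h ∈ _
  rw [this]
  exact sub_mem (Submodule.subset_span ⟨_, rfl⟩) (Submodule.subset_span ⟨_, rfl⟩)

lemma top_mul_aug : ⊤ * Aug p G ≤ Aug p G := by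
  rw [← span_of_top (p := p) (G := G), Aug, Submodule.span_mul_span, Submodule.span_le]
  rintro _ ⟨_, ⟨g, rfl⟩, _, ⟨h, rfl⟩, rfl⟩
  have : MonoidAlgebra.of (ZMod p) G g * (MonoidAlgebra.of (ZMod p) G h - 1) =
      (MonoidAlgebra.of (ZMod p) G (g * h) - 1) - (MonoidAlgebra.of (ZMod p) G g - 1) := by
    rw [mul_sub, mul_one, map_mul]; abel
  simp only [SetLike.mem_coe]
  change MonoidAlgebra.of (ZMod p) G g * (MonoidAlgebra.of (ZMod p) G h - 1) ∈ _
  rw [this]
  exact sub_mem (Submodule.subset_span ⟨_, rfl⟩) (Submodule.subset_span ⟨_, rfl⟩)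

lemma aug_pow_mul_top {n : ℕ} (hn : 0 < n) : (Aug p G) ^ n * ⊤ ≤ (Aug p G) ^ n := by
  obtain ⟨m, rfl⟩ : ∃ m, n = m + 1 := ⟨n - 1, by omega⟩
  rw [pow_succ, mul_assoc]
  exact mul_le_mul' le_rfl aug_mul_top

lemma top_mul_aug_pow {n : ℕ} (hn : 0 < n) : ⊤ * (Aug p G) ^ n ≤ (Aug p G) ^ n := by
  obtain ⟨m, rfl⟩ : ∃ m, n = m + 1 := ⟨n - 1, by omega⟩
  rw [pow_succ', ← mul_assoc]
  exact mul_le_mul' top_mul_aug le_rfl

lemma aug_pow_le {n m : ℕ} (hn : 0 < n) (hnm : n ≤ m) : (Aug p G) ^ m ≤ (Aug p G) ^ n := by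
  obtain ⟨k, rfl⟩ := Nat.exists_eq_add_of_le hnm
  rw [pow_add]
  exact (mul_le_mul' le_rfl le_top).trans (aug_pow_mul_top hn)

/-- the dimension subgroup -/
def dimSub (p : ℕ) (G : Type*) [Group G] (n : ℕ) (hn : 0 < n) : Subgroup G where
  carrier := {g | MonoidAlgebra.of (ZMod p) G g - 1 ∈ (Aug p G) ^ n}
  one_mem' := by
    change MonoidAlgebra.of (ZMod p) G 1 - 1 ∈ (Aug p G) ^ n
    rw [map_one, sub_self]
    exact zero_mem _
  mul_mem' := by
    intro g h hg hh
    have : MonoidAlgebra.of (ZMod p) G (g * h) - 1 =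
        (MonoidAlgebra.of (ZMod p) G g - 1) * MonoidAlgebra.of (ZMod p) G h +
          (MonoidAlgebra.of (ZMod p) G h - 1) := by
      rw [sub_mul, one_mul, map_mul]; abel
    change MonoidAlgebra.of (ZMod p) G (g * h) - 1 ∈ (Aug p G) ^ n
    rw [this]
    exact add_mem (aug_pow_mul_top hn (Submodule.mul_mem_mul hg trivial)) hh
  inv_mem' := by
    intro g hg
    have : MonoidAlgebra.of (ZMod p) G g⁻¹ - 1 =
        -(MonoidAlgebra.of (ZMod p) G g⁻¹ * (MonoidAlgebra.of (ZMod p) G g - 1)) := by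
      rw [mul_sub, mul_one, ← map_mul, inv_mul_cancel, map_one]; abel
    change MonoidAlgebra.of (ZMod p) G g⁻¹ - 1 ∈ (Aug p G) ^ n
    rw [this]
    exact neg_mem (top_mul_aug_pow hn (Submodule.mul_mem_mul trivial hg))

lemma dimSub_index [NeZero p] {n : ℕ} (hn : 0 < n)
    [Finite ((MonoidAlgebra (ZMod p) G) ⧸ (Aug p G) ^ n)] : (dimSub p G n hn).index ≠ 0 := by
  have hfin : Finite (G ⧸ dimSub p G n hn) := by
    let f : (G ⧸ dimSub p G n hn) → ((MonoidAlgebra (ZMod p) G) ⧸ (Aug p G) ^ n) := fun q =>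
      Submodule.Quotient.mk (MonoidAlgebra.of (ZMod p) G q.out)
    refine Finite.of_injective f ?_
    intro q₁ q₂ h
    have h1 : MonoidAlgebra.of (ZMod p) G q₁.out - MonoidAlgebra.of (ZMod p) G q₂.out ∈
        (Aug p G) ^ n := (Submodule.Quotient.eq _).1 h
    have h2 : q₂.out⁻¹ * q₁.out ∈ dimSub p G n hn := by
      change MonoidAlgebra.of (ZMod p) G (q₂.out⁻¹ * q₁.out) - 1 ∈ (Aug p G) ^ n
      have h3 : MonoidAlgebra.of (ZMod p) G (q₂.out⁻¹ * q₁.out) - 1 =
          MonoidAlgebra.of (ZMod p) G (q₂.out⁻¹) *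
            (MonoidAlgebra.of (ZMod p) G q₁.out - MonoidAlgebra.of (ZMod p) G q₂.out) := by
        rw [mul_sub, ← map_mul, ← map_mul, inv_mul_cancel, map_one]
      rw [h3]
      exact top_mul_aug_pow hn (Submodule.mul_mem_mul trivial h1)
    have h4 : (QuotientGroup.mk q₂.out : G ⧸ dimSub p G n hn) = QuotientGroup.mk q₁.out :=
      QuotientGroup.eq.2 h2
    rw [QuotientGroup.out_eq', QuotientGroup.out_eq'] at h4
    exact h4.symm
  exact Subgroup.index_ne_zero_of_finite

variable {r : ℕ} {z : Fin r → G}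

/-- first step: `F_p[K] ≤ 1 + U * F_p[K]`, where `U` is spanned by the `z_i - 1` -/
lemma step (K : Subgroup G) (hK : closure (Set.range z) = K) :
    Submodule.span (ZMod p) (MonoidAlgebra.of (ZMod p) G '' (K : Set G)) ≤
      1 + Submodule.span (ZMod p) (Set.range fun i => MonoidAlgebra.of (ZMod p) G (z i) - 1) *
        Submodule.span (ZMod p) (MonoidAlgebra.of (ZMod p) G '' (K : Set G)) := by
  rw [Submodule.span_le]
  rintro _ ⟨k, hk, rfl⟩
  rw [SetLike.mem_coe]
  set U := Submodule.span (ZMod p) (Set.range fun i => MonoidAlgebra.of (ZMod p) G (z i) - 1) with hU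
  set B := Submodule.span (ZMod p) (MonoidAlgebra.of (ZMod p) G '' (K : Set G)) with hB
  have hzK : ∀ i, z i ∈ K := fun i => by rw [← hK]; exact subset_closure ⟨i, rfl⟩
  have hkc : k ∈ closure (Set.range z) := by rw [hK]; exact hk
  have key : ∀ x ∈ closure (Set.range z), MonoidAlgebra.of (ZMod p) G x ∈ 1 + U * B := by
    intro x hx
    induction hx using Subgroup.closure_induction_left with
    | one =>
      rw [map_one, Submodule.add_eq_sup]
      exact Submodule.mem_sup_left (Submodule.one_le.1 le_rfl)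
    | mul_left x hx y hy ih =>
      obtain ⟨i, rfl⟩ := hx
      have h1 : MonoidAlgebra.of (ZMod p) G (z i * y) = MonoidAlgebra.of (ZMod p) G y +
          (MonoidAlgebra.of (ZMod p) G (z i) - 1) * MonoidAlgebra.of (ZMod p) G y := by
        rw [sub_mul, one_mul, map_mul]; abel
      rw [h1]
      refine add_mem ih ?_
      rw [Submodule.add_eq_sup]
      refine Submodule.mem_sup_right (Submodule.mul_mem_mul (Submodule.subset_span ⟨i, rfl⟩) ?_)
      exact Submodule.subset_span ⟨y, by rw [← hK]; exact hy, rfl⟩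
    | inv_mul_cancel x hx y hy ih =>
      obtain ⟨i, rfl⟩ := hx
      have h1 : MonoidAlgebra.of (ZMod p) G ((z i)⁻¹ * y) = MonoidAlgebra.of (ZMod p) G y -
          (MonoidAlgebra.of (ZMod p) G (z i) - 1) * MonoidAlgebra.of (ZMod p) G ((z i)⁻¹ * y) := by
        rw [sub_mul, one_mul, ← map_mul, mul_inv_cancel_left]; abel
      rw [h1]
      refine sub_mem ih ?_
      rw [Submodule.add_eq_sup]
      refine Submodule.mem_sup_right (Submodule.mul_mem_mul (Submodule.subset_span ⟨i, rfl⟩) ?_)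
      refine Submodule.subset_span ⟨(z i)⁻¹ * y, ?_, rfl⟩
      exact mul_mem (inv_mem (hzK i)) (by rw [← hK]; exact hy)
  exact key k hkc

lemma iterate {F R : Type*} [Field F] [Ring R] [Algebra F R] {U B : Submodule F R}
    (h : B ≤ 1 + U * B) (j : ℕ) : B ≤ (∑ i ∈ Finset.range j, U ^ i) + U ^ j * B := by
  induction j with
  | zero => simp
  | succ j ih =>
    refine ih.trans ?_
    rw [Finset.sum_range_succ, add_assoc]
    refine add_le_add le_rfl ?_
    have h1 : U ^ j * B ≤ U ^ j * (1 + U * B) := mul_le_mul' le_rfl h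
    refine h1.trans ?_
    rw [mul_add, mul_one, ← mul_assoc, ← pow_succ]

/-- the main estimate -/
lemma estimate [Fact p.Prime] (hKi : (closure (Set.range z)).index ≠ 0) {N : ℕ}
    (hz : ∀ i, MonoidAlgebra.of (ZMod p) G (z i) - 1 ∈ (Aug p G) ^ N) {n j : ℕ} (hn : 0 < n)
    (hnj : n ≤ N * j) :
    Module.Finite (ZMod p) ((MonoidAlgebra (ZMod p) G) ⧸ (Aug p G) ^ n) ∧
      growth p G n ≤ (∑ i ∈ Finset.range j, r ^ i) * (closure (Set.range z)).index := by
  classical
  set K := closure (Set.range z) with hK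
  set U := Submodule.span (ZMod p) (Set.range fun i => MonoidAlgebra.of (ZMod p) G (z i) - 1) with hU
  set B := Submodule.span (ZMod p) (MonoidAlgebra.of (ZMod p) G '' (K : Set G)) with hB
  haveI : K.FiniteIndex := ⟨hKi⟩
  haveI : Fintype (G ⧸ K) := Fintype.ofFinite _
  let t : (G ⧸ K) → G := fun q => q.out⁻¹
  set C := Submodule.span (ZMod p) (Set.range fun q => MonoidAlgebra.of (ZMod p) G (t q)) with hC
  have hCsp : Sp C K.index := by
    refine ⟨Finset.univ.image (fun q => MonoidAlgebra.of (ZMod p) G (t q)), ?_, by simp [hC]⟩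
    refine (Finset.card_image_le).trans ?_
    rw [Finset.card_univ, Subgroup.index, Nat.card_eq_fintype_card]
  have hBC : ⊤ ≤ B * C := by
    rw [← span_of_top (p := p) (G := G), Submodule.span_le]
    rintro _ ⟨g, rfl⟩
    let q : G ⧸ K := QuotientGroup.mk g⁻¹
    have h1 : q.out⁻¹ * g⁻¹ ∈ K := by
      rw [← QuotientGroup.eq]
      exact QuotientGroup.out_eq' q
    have h2 : g = (q.out⁻¹ * g⁻¹)⁻¹ * t q := by simp only [t]; group
    rw [h2, map_mul]
    exact Submodule.mul_mem_mul (Submodule.subset_span ⟨_, inv_mem h1, rfl⟩)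
      (Submodule.subset_span ⟨q, rfl⟩)
  have hstep := iterate (step (p := p) K rfl) j
  have hUaug : U ≤ (Aug p G) ^ N := by
    rw [hU, Submodule.span_le]
    rintro _ ⟨i, rfl⟩
    exact hz i
  have hpow : U ^ j ≤ (Aug p G) ^ (N * j) := by
    rw [pow_mul]
    exact pow_le_pow_left' hUaug j
  have hNj : 0 < N * j := lt_of_lt_of_le hn hnj
  have htop : ⊤ ≤ (∑ i ∈ Finset.range j, U ^ i) * C + (Aug p G) ^ n := by
    calc (⊤ : Submodule (ZMod p) (MonoidAlgebra (ZMod p) G)) ≤ B * C := hBC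
      _ ≤ ((∑ i ∈ Finset.range j, U ^ i) + U ^ j * B) * C := mul_le_mul' hstep le_rfl
      _ = (∑ i ∈ Finset.range j, U ^ i) * C + U ^ j * (B * C) := by rw [add_mul, mul_assoc]
      _ ≤ (∑ i ∈ Finset.range j, U ^ i) * C + (Aug p G) ^ n := by
        refine add_le_add le_rfl ?_
        calc U ^ j * (B * C) ≤ U ^ j * ⊤ := mul_le_mul' le_rfl le_top
          _ ≤ (Aug p G) ^ (N * j) * ⊤ := mul_le_mul' hpow le_rfl
          _ ≤ (Aug p G) ^ (N * j) := aug_pow_mul_top hNj
          _ ≤ (Aug p G) ^ n := aug_pow_le hn hnj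
  have hW : Sp ((∑ i ∈ Finset.range j, U ^ i) * C)
      ((∑ i ∈ Finset.range j, r ^ i) * K.index) := ((Sp.range _).sum j).mul hCsp
  exact hW.finrank htop

end group

end Pool.Agent.H67.PG
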