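import Mathlib
import Pool.Agent.H67.PG.Growth

set_option autoImplicit false

open scoped Pointwise

namespace Pool.Agent.H67.PG

open Subgroup

/-- the semidirect product of a module by the group -/
structure Ext (p : ℕ) (G M : Type*) where
  m : M
  g : G

section ext

variable {p : ℕ} {G : Type*} [Group G] {M : Type*} [AddCommGroup M]
  [Module (MonoidAlgebra (ZMod p) G) M]


namespace Ext

@[ext] lemma ext' {x y : Ext p G M} (h1 : x.m = y.m) (h2 : x.g = y.g) : x = y := by
  cases x; cases y; simp_all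

noncomputable instance : Mul (Ext p G M) := ⟨fun x y => ⟨x.m + (MonoidAlgebra.of (ZMod p) G) x.g • y.m, x.g * y.g⟩⟩
instance : One (Ext p G M) := ⟨⟨0, 1⟩⟩
noncomputable instance : Inv (Ext p G M) := ⟨fun x => ⟨-((MonoidAlgebra.of (ZMod p) G) x.g⁻¹ • x.m), x.g⁻¹⟩⟩

lemma mul_m (x y : Ext p G M) : (x * y).m = x.m + (MonoidAlgebra.of (ZMod p) G) x.g • y.m := rfl
lemma mul_g (x y : Ext p G M) : (x * y).g = x.g * y.g := rfl
lemma one_m : (1 : Ext p G M).m = 0 := rfl
lemma one_g : (1 : Ext p G M).g = 1 := rfl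
lemma inv_m (x : Ext p G M) : (x⁻¹).m = -((MonoidAlgebra.of (ZMod p) G) x.g⁻¹ • x.m) := rfl
lemma inv_g (x : Ext p G M) : (x⁻¹).g = x.g⁻¹ := rfl

noncomputable instance : Group (Ext p G M) where
  mul_assoc x y z := by
    apply ext'
    · simp only [mul_m, mul_g, map_mul, mul_smul, smul_add, add_assoc]
    · simp only [mul_g, mul_assoc]
  one_mul x := by
    apply ext'
    · simp only [mul_m, one_m, one_g, map_one, one_smul, zero_add]
    · simp only [mul_g, one_g, one_mul]
  mul_one x := by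
    apply ext'
    · simp only [mul_m, one_m, smul_zero, add_zero]
    · simp only [mul_g, one_g, mul_one]
  inv_mul_cancel x := by
    apply ext'
    · simp only [mul_m, inv_m, inv_g, one_m, neg_add_cancel]
    · simp only [mul_g, inv_g, one_g, inv_mul_cancel]

/-- projection to the group -/
noncomputable def pr : Ext p G M →* G where
  toFun x := x.g
  map_one' := rfl
  map_mul' _ _ := rfl

/-- functoriality -/
noncomputable def map {M' : Type*} [AddCommGroup M'] [Module (MonoidAlgebra (ZMod p) G) M']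
    (f : M →ₗ[MonoidAlgebra (ZMod p) G] M') : Ext p G M →* Ext p G M' where
  toFun x := ⟨f x.m, x.g⟩
  map_one' := by
    apply ext'
    · simp [one_m]
    · rfl
  map_mul' x y := by
    apply ext'
    · simp [mul_m]
    · rfl

end Ext

variable {d : ℕ} (φ : FreeGroup (Fin d) →* G) (e : Fin d → M)

/-- the crossed homomorphism with given values on the generators -/
noncomputable def fox : FreeGroup (Fin d) →* Ext p G M :=
  FreeGroup.lift fun i => ⟨e i, φ (FreeGroup.of i)⟩

lemma fox_g (x : FreeGroup (Fin d)) : (fox (p := p) φ e x).g = φ x := by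
  have h : (Ext.pr (p := p) (G := G) (M := M)).comp (fox (p := p) φ e) = φ := by
    apply FreeGroup.ext_hom
    intro i
    simp [fox, Ext.pr]
  exact DFunLike.congr_fun h x

lemma fox_of (i : Fin d) : (fox (p := p) φ e (FreeGroup.of i)).m = e i := by
  simp [fox]

lemma fox_mul (x y : FreeGroup (Fin d)) : (fox (p := p) φ e (x * y)).m =
    (fox (p := p) φ e x).m + (MonoidAlgebra.of (ZMod p) G) (φ x) • (fox (p := p) φ e y).m := by
  rw [map_mul, Ext.mul_m, fox_g]

lemma fox_map {M' : Type*} [AddCommGroup M'] [Module (MonoidAlgebra (ZMod p) G) M']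
    (f : M →ₗ[MonoidAlgebra (ZMod p) G] M') (x : FreeGroup (Fin d)) :
    fox (p := p) φ (fun i => f (e i)) x = Ext.map f (fox (p := p) φ e x) := by
  have h : fox (p := p) φ (fun i => f (e i)) = (Ext.map f).comp (fox (p := p) φ e) := by
    apply FreeGroup.ext_hom
    intro i
    simp [fox, Ext.map]
  exact DFunLike.congr_fun h x

end ext

section main

variable {p : ℕ} {G : Type*} [Group G]


/-- the power of the augmentation ideal as a left ideal -/
def augIdeal (p : ℕ) (G : Type*) [Group G] (n : ℕ) (hn : 0 < n) :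
    Submodule (MonoidAlgebra (ZMod p) G) (MonoidAlgebra (ZMod p) G) where
  carrier := {x | x ∈ (Aug p G) ^ n}
  zero_mem' := zero_mem ((Aug p G) ^ n)
  add_mem' := fun {a b} ha hb => add_mem (show a ∈ (Aug p G) ^ n from ha) hb
  smul_mem' := fun c x hx => top_mul_aug_pow hn (Submodule.mul_mem_mul trivial hx)

lemma mem_augIdeal {n : ℕ} {hn : 0 < n} {x : (MonoidAlgebra (ZMod p) G)} : x ∈ augIdeal p G n hn ↔ x ∈ (Aug p G) ^ n :=
  Iff.rfl

/-- induction principle for the powers of the augmentation ideal -/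
lemma aug_pow_succ_induction {V : Type*} [AddCommGroup V] [Module (ZMod p) V] {n : ℕ}
    (f : (MonoidAlgebra (ZMod p) G) →ₗ[ZMod p] V) (W : Submodule (ZMod p) V)
    (h : ∀ b ∈ (Aug p G) ^ n, ∀ g : G, f (b * ((MonoidAlgebra.of (ZMod p) G) g - 1)) ∈ W) {x : (MonoidAlgebra (ZMod p) G)}
    (hx : x ∈ (Aug p G) ^ (n + 1)) : f x ∈ W := by
  rw [pow_succ] at hx
  induction hx using Submodule.mul_induction_on' with
  | mem_mul_mem b hb c hc =>
    rw [Aug] at hc
    induction hc using Submodule.span_induction with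
    | mem y hy =>
      obtain ⟨g, rfl⟩ := hy
      exact h b hb g
    | zero => rw [mul_zero, map_zero]; exact zero_mem _
    | add y z _ _ hy hz => rw [mul_add, map_add]; exact add_mem hy hz
    | smul r y _ hy => rw [mul_smul_comm, map_smul]; exact Submodule.smul_mem _ _ hy
  | add x _ y _ hx hy => rw [map_add]; exact add_mem hx hy

/-- the linear extension of a map on the group -/
noncomputable def lin {V : Type*} [AddCommGroup V] [Module (ZMod p) V] (δ : G → V) :
    (MonoidAlgebra (ZMod p) G) →ₗ[ZMod p] V :=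
  (Finsupp.lsum (ZMod p) (fun g => LinearMap.toSpanSingleton (ZMod p) V (δ g))) ∘ₗ
    (MonoidAlgebra.coeffLinearEquiv (ZMod p)).toLinearMap

lemma lin_of {V : Type*} [AddCommGroup V] [Module (ZMod p) V] (δ : G → V) (g : G) :
    lin (p := p) δ ((MonoidAlgebra.of (ZMod p) G) g) = δ g := by
  simp [lin]

lemma lin_ext {V : Type*} [AddCommGroup V] [Module (ZMod p) V] {f f' : (MonoidAlgebra (ZMod p) G) →ₗ[ZMod p] V}
    (h : ∀ g : G, f ((MonoidAlgebra.of (ZMod p) G) g) = f' ((MonoidAlgebra.of (ZMod p) G) g)) : f = f' := by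
  apply LinearMap.ext_on (span_of_top (p := p) (G := G))
  rintro _ ⟨g, rfl⟩
  exact h g

variable {X : Type*} [Group X] {V : Type*} [AddCommGroup V]
  [Module (MonoidAlgebra (ZMod p) G) V] [Module (ZMod p) V]
  [IsScalarTower (ZMod p) (MonoidAlgebra (ZMod p) G) V]

/-- the linear extension of a crossed homomorphism -/
lemma lin_mul (ψ : MonoidAlgebra (ZMod p) X →ₐ[ZMod p] (MonoidAlgebra (ZMod p) G)) {δ : X → V}
    (hδ : ∀ x y, δ (x * y) = δ x + ψ (MonoidAlgebra.of (ZMod p) X x) • δ y)
    (b : MonoidAlgebra (ZMod p) X) (y : X) :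
    lin (p := p) δ (b * (MonoidAlgebra.of (ZMod p) X y - 1)) = ψ b • δ y := by
  let f₁ : MonoidAlgebra (ZMod p) X →ₗ[ZMod p] V :=
    (lin (p := p) δ) ∘ₗ (LinearMap.mulRight (ZMod p) (MonoidAlgebra.of (ZMod p) X y - 1))
  let f₂ : MonoidAlgebra (ZMod p) X →ₗ[ZMod p] V :=
    ((LinearMap.toSpanSingleton (MonoidAlgebra (ZMod p) G) V (δ y)).restrictScalars (ZMod p)) ∘ₗ ψ.toLinearMap
  have h : f₁ = f₂ := by
    apply lin_ext
    intro x
    simp only [f₁, f₂, LinearMap.comp_apply, LinearMap.mulRight_apply, AlgHom.toLinearMap_apply,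
      LinearMap.restrictScalars_apply, LinearMap.toSpanSingleton_apply]
    rw [mul_sub, mul_one, ← map_mul, map_sub, lin_of, lin_of, hδ]
    abel
  exact LinearMap.congr_fun h b

lemma map_aug_pow (φ : X →* G) (n : ℕ) {b : MonoidAlgebra (ZMod p) X}
    (hb : b ∈ (Aug p X) ^ n) :
    MonoidAlgebra.mapDomainAlgHom (ZMod p) (ZMod p) φ b ∈ (Aug p G) ^ n := by
  have h1 : (Aug p X).map (MonoidAlgebra.mapDomainAlgHom (ZMod p) (ZMod p) φ).toLinearMap ≤
      Aug p G := by
    rw [Aug, Submodule.map_span, Submodule.span_le]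
    rintro _ ⟨_, ⟨x, rfl⟩, rfl⟩
    simp only [AlgHom.toLinearMap_apply, map_sub, map_one, SetLike.mem_coe]
    refine Submodule.subset_span ⟨φ x, ?_⟩
    simp
  have h2 : ((Aug p X) ^ n).map (MonoidAlgebra.mapDomainAlgHom (ZMod p) (ZMod p) φ).toLinearMap ≤
      (Aug p G) ^ n := by
    rw [Submodule.map_pow]
    exact pow_le_pow_left' h1 n
  exact h2 ⟨b, hb, rfl⟩

end main

section ineq

variable {p : ℕ} [Fact p.Prime] {G : Type*} [Group G] {d : ℕ}
  (φ : FreeGroup (Fin d) →* G) (hφ : Function.Surjective φ)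
  {ι : Type*} (ρ : ι → FreeGroup (Fin d)) (deg : ι → ℕ)
  (hker : φ.ker = normalClosure (Set.range ρ))
  (hdeg : ∀ i, MonoidAlgebra.of (ZMod p) (FreeGroup (Fin d)) (ρ i) - 1 ∈
    (Aug p (FreeGroup (Fin d))) ^ (deg i))
  (hdeg1 : ∀ i, 1 ≤ deg i)


include hφ in
lemma finite_quot {n : ℕ} (hn : 0 < n) :
    Module.Finite (ZMod p) (MonoidAlgebra (ZMod p) G ⧸ (Aug p G) ^ n) := by
  have hcl : closure (Set.range fun i => φ (FreeGroup.of i)) = ⊤ := by
    rw [eq_top_iff]
    intro g _
    obtain ⟨x, rfl⟩ := hφ g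
    rename_i hh
    clear hh
    induction x using FreeGroup.induction_on with
    | C1 => rw [map_one]; exact one_mem _
    | of i => exact subset_closure ⟨i, rfl⟩
    | inv_of i hi => rw [map_inv]; exact inv_mem hi
    | mul x y hx hy => rw [map_mul]; exact mul_mem hx hy
  have h1 : (closure (Set.range fun i => φ (FreeGroup.of i))).index ≠ 0 := by
    rw [hcl]; simp
  refine (estimate (N := 1) (j := n) h1 (fun i => ?_) hn (by omega)).1
  rw [pow_one]
  exact Submodule.subset_span ⟨_, rfl⟩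

lemma growth_eq {n : ℕ} (hn : 0 < n) :
    Module.finrank (ZMod p) ((MonoidAlgebra (ZMod p) G) ⧸ augIdeal p G n hn) = growth p G n := by
  have h : (augIdeal p G n hn).restrictScalars (ZMod p) = (Aug p G) ^ n := by
    ext x; exact Iff.rfl
  rw [growth, ← h]
  exact (LinearEquiv.finrank_eq
    (Submodule.Quotient.restrictScalarsEquiv (ZMod p) (augIdeal p G n hn))).symm

include hφ in
lemma finite_quot' {n : ℕ} (hn : 0 < n) :
    Module.Finite (ZMod p) ((MonoidAlgebra (ZMod p) G) ⧸ augIdeal p G n hn) := by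
  have h : (augIdeal p G n hn).restrictScalars (ZMod p) = (Aug p G) ^ n := by
    ext x; exact Iff.rfl
  have h1 := finite_quot (p := p) φ hφ hn
  rw [← h] at h1
  exact Module.Finite.equiv (Submodule.Quotient.restrictScalarsEquiv (ZMod p) (augIdeal p G n hn))

/-- the map from the quotient to the cyclic submodule generated by `v` -/
lemma exists_map {V : Type*} [AddCommGroup V] [Module (MonoidAlgebra (ZMod p) G) V]
    [Module (ZMod p) V] [IsScalarTower (ZMod p) (MonoidAlgebra (ZMod p) G) V] {n : ℕ} (v : V)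
    (h : ∀ c ∈ (Aug p G) ^ n, c • v = 0) :
    ∃ T : ((MonoidAlgebra (ZMod p) G) ⧸ (Aug p G) ^ n) →ₗ[ZMod p] V, ∀ c : (MonoidAlgebra (ZMod p) G), T (Submodule.Quotient.mk c) = c • v := by
  let T₀ : (MonoidAlgebra (ZMod p) G) →ₗ[ZMod p] V := (LinearMap.toSpanSingleton (MonoidAlgebra (ZMod p) G) V v).restrictScalars (ZMod p)
  have hT₀ : (Aug p G) ^ n ≤ LinearMap.ker T₀ := by
    intro c hc
    rw [LinearMap.mem_ker]
    exact h c hc
  exact ⟨((Aug p G) ^ n).liftQ T₀ hT₀, fun c => rfl⟩

include hdeg hdeg1 in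
/-- the Fox derivative of a relator of degree `k` is killed by the power `n + 1 - k` -/
lemma kill_rel {n : ℕ} {V : Type*} [AddCommGroup V]
    [Module (MonoidAlgebra (ZMod p) G) V]
    [Module (ZMod p) V] [IsScalarTower (ZMod p) (MonoidAlgebra (ZMod p) G) V]
    (hV : ∀ c ∈ (Aug p G) ^ n, ∀ v : V, c • v = 0) (e : Fin d → V) (i : ι)
    {m : ℕ} (hm : n + 1 ≤ m + deg i) {c : (MonoidAlgebra (ZMod p) G)} (hc : c ∈ (Aug p G) ^ m) :
    c • (fox (p := p) φ e (ρ i)).m = 0 := by
  obtain ⟨k, hk⟩ : ∃ k, deg i = k + 1 := ⟨deg i - 1, by have := hdeg1 i; omega⟩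
  have hV' : ∀ c ∈ (Aug p G) ^ (m + k), ∀ v : V, c • v = 0 := by
    intro c hc v
    rcases Nat.eq_zero_or_pos n with h0 | h0
    · -- n = 0: everything is zero
      subst h0
      have h1 : (1 : (MonoidAlgebra (ZMod p) G)) • v = 0 := hV 1 (by rw [pow_zero]; exact Submodule.one_le.1 le_rfl) v
      rw [one_smul] at h1
      rw [h1, smul_zero]
    · exact hV c (aug_pow_le h0 (by omega) hc) v
  let D : MonoidAlgebra (ZMod p) (FreeGroup (Fin d)) →ₗ[ZMod p] V :=
    lin (p := p) (fun x => (fox (p := p) φ e x).m)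
  let L : V →ₗ[ZMod p] V :=
    { toFun := fun v => c • v
      map_add' := fun v w => smul_add c v w
      map_smul' := fun r v => by
        rw [RingHom.id_apply]
        exact (smul_algebra_smul_comm r c v) }
  have h1 : (L ∘ₗ D) (MonoidAlgebra.of (ZMod p) (FreeGroup (Fin d)) (ρ i) - 1) ∈
      (⊥ : Submodule (ZMod p) V) := by
    refine aug_pow_succ_induction (n := k) (L ∘ₗ D) ⊥ ?_ (by rw [← hk]; exact hdeg i)
    intro b hb x
    rw [Submodule.mem_bot]
    change c • D _ = 0
    have h2 : D (b * (MonoidAlgebra.of (ZMod p) (FreeGroup (Fin d)) x - 1)) =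
        MonoidAlgebra.mapDomainAlgHom (ZMod p) (ZMod p) φ b • (fox (p := p) φ e x).m := by
      apply lin_mul (MonoidAlgebra.mapDomainAlgHom (ZMod p) (ZMod p) φ)
      intro x y
      rw [fox_mul]
      congr 2
      simp
    rw [h2, ← mul_smul]
    apply hV'
    rw [pow_add]
    exact Submodule.mul_mem_mul hc (map_aug_pow φ k hb)
  rw [Submodule.mem_bot] at h1
  have h3 : D (MonoidAlgebra.of (ZMod p) (FreeGroup (Fin d)) (ρ i) - 1) =
      (fox (p := p) φ e (ρ i)).m := by
    have e1 : D 1 = 0 := by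
      have e2 := lin_of (p := p) (fun x : FreeGroup (Fin d) => (fox (p := p) φ e x).m) 1
      rw [map_one (MonoidAlgebra.of (ZMod p) (FreeGroup (Fin d))), map_one (fox (p := p) φ e),
        Ext.one_m] at e2
      exact e2
    have e3 : D (MonoidAlgebra.of (ZMod p) (FreeGroup (Fin d)) (ρ i)) =
        (fox (p := p) φ e (ρ i)).m := lin_of (p := p) _ _
    rw [map_sub, e1, e3, sub_zero]
  change c • D _ = 0 at h1
  rw [h3] at h1
  exact h1

include hφ hker hdeg hdeg1 in
/-- the Golod-Shafarevich inequality -/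
theorem gs_ineq {n : ℕ} (hn : 0 < n) (s : Finset ι) (hs : ∀ i, i ∈ s ↔ deg i ≤ n) :
    1 + d * growth p G n ≤ growth p G (n + 1) + ∑ i ∈ s, growth p G (n + 1 - deg i) := by
  classical
  -- the module M'
  let Q := (MonoidAlgebra (ZMod p) G) ⧸ augIdeal p G n hn
  let e : Fin d → (Fin d → Q) := fun i => Pi.single i (Submodule.Quotient.mk 1)
  have hQfin : Module.Finite (ZMod p) Q := finite_quot' φ hφ hn
  let S : Submodule (MonoidAlgebra (ZMod p) G) (Fin d → Q) := Submodule.span (MonoidAlgebra (ZMod p) G) (Set.range fun i => (fox (p := p) φ e (ρ i)).m)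
  let M := (Fin d → Q) ⧸ S
  let ē : Fin d → M := fun i => S.mkQ (e i)
  have hMfin : Module.Finite (ZMod p) M :=
    Module.Finite.of_surjective (S.mkQ.restrictScalars (ZMod p)) S.mkQ_surjective
  -- powers of the augmentation ideal kill
  have hkillQ : ∀ c ∈ (Aug p G) ^ n, ∀ v : (Fin d → Q), c • v = 0 := by
    intro c hc v
    funext i
    obtain ⟨a, ha⟩ := Submodule.Quotient.mk_surjective _ (v i)
    rw [Pi.smul_apply, ← ha, ← Submodule.Quotient.mk_smul, Pi.zero_apply,
      Submodule.Quotient.mk_eq_zero]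
    exact aug_pow_mul_top hn (Submodule.mul_mem_mul hc trivial)
  have hkillM : ∀ c ∈ (Aug p G) ^ n, ∀ v : M, c • v = 0 := by
    intro c hc v
    obtain ⟨a, rfl⟩ := S.mkQ_surjective v
    rw [← map_smul, hkillQ c hc a, map_zero]
  -- the relators act trivially
  have hrel : ∀ i, fox (p := p) φ ē (ρ i) = 1 := by
    intro i
    have h1 := fox_map (p := p) φ e S.mkQ (ρ i)
    rw [show (fun i => S.mkQ (e i)) = ē from rfl] at h1
    rw [h1]
    apply Ext.ext'
    · change S.mkQ (fox (p := p) φ e (ρ i)).m = 0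
      rw [Submodule.mkQ_apply, Submodule.Quotient.mk_eq_zero]
      exact Submodule.subset_span ⟨i, rfl⟩
    · change (fox (p := p) φ e (ρ i)).g = 1
      rw [fox_g]
      have : ρ i ∈ φ.ker := by
        rw [hker]; exact subset_normalClosure ⟨i, rfl⟩
      exact this
  have hkerle : φ.ker ≤ (fox (p := p) φ ē).ker := by
    rw [hker]
    refine normalClosure_le_normal ?_
    rintro _ ⟨i, rfl⟩
    exact hrel i
  let δ : G → M := fun g => (fox (p := p) φ ē (Function.surjInv hφ g)).m
  have hδ : ∀ x, δ (φ x) = (fox (p := p) φ ē x).m := by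
    intro x
    have h1 : φ (Function.surjInv hφ (φ x)) = φ x := Function.surjInv_eq hφ _
    have h2 : (Function.surjInv hφ (φ x))⁻¹ * x ∈ φ.ker := by
      rw [MonoidHom.mem_ker, map_mul, map_inv, h1, inv_mul_cancel]
    have h3 := hkerle h2
    rw [MonoidHom.mem_ker, map_mul, map_inv, inv_mul_eq_one] at h3
    simp only [δ]
    rw [h3]
  have hδmul : ∀ g h : G, δ (g * h) = δ g + (AlgHom.id (ZMod p) (MonoidAlgebra (ZMod p) G)) ((MonoidAlgebra.of (ZMod p) G) g) • δ h := by
    intro g h
    obtain ⟨x, rfl⟩ := hφ g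
    obtain ⟨y, rfl⟩ := hφ h
    rw [← map_mul, hδ, hδ, hδ, fox_mul]
    rfl
  let D : (MonoidAlgebra (ZMod p) G) →ₗ[ZMod p] M := lin (p := p) δ
  have hD : ∀ (b : (MonoidAlgebra (ZMod p) G)) (g : G), D (b * ((MonoidAlgebra.of (ZMod p) G) g - 1)) = b • δ g := by
    intro b g
    exact lin_mul (AlgHom.id (ZMod p) (MonoidAlgebra (ZMod p) G)) hδmul b g
  have hδ1 : δ 1 = 0 := by
    have := hδ 1
    rw [map_one, map_one, Ext.one_m] at this
    exact this
  have hD1 : D 1 = 0 := by
    have := lin_of (p := p) δ 1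
    rw [map_one] at this
    rw [← hδ1]; exact this
  let ε : (MonoidAlgebra (ZMod p) G) →ₗ[ZMod p] ZMod p := lin (p := p) (fun _ => 1)
  have hε : ∀ (b : (MonoidAlgebra (ZMod p) G)) (g : G), ε (b * ((MonoidAlgebra.of (ZMod p) G) g - 1)) = 0 := by
    intro b g
    have : (ε ∘ₗ (LinearMap.mulRight (ZMod p) ((MonoidAlgebra.of (ZMod p) G) g - 1))) = 0 := by
      apply lin_ext
      intro x
      simp only [LinearMap.comp_apply, LinearMap.mulRight_apply, LinearMap.zero_apply]
      rw [mul_sub, mul_one, ← map_mul, map_sub]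
      simp only [ε, lin_of, sub_self]
    exact LinearMap.congr_fun this b
  have hε1 : ε 1 = 1 := by
    have := lin_of (p := p) (fun _ : G => (1 : ZMod p)) 1
    rw [map_one] at this
    exact this
  let Φ : (MonoidAlgebra (ZMod p) G) →ₗ[ZMod p] (ZMod p × M) := ε.prod D
  have hΦker : (Aug p G) ^ (n + 1) ≤ LinearMap.ker Φ := by
    intro x hx
    rw [LinearMap.mem_ker]
    have := aug_pow_succ_induction Φ ⊥ (fun b hb g => by
      rw [Submodule.mem_bot]
      change (ε (b * ((MonoidAlgebra.of (ZMod p) G) g - 1)), D (b * ((MonoidAlgebra.of (ZMod p) G) g - 1))) = 0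
      rw [hε, hD, hkillM b hb]; rfl) hx
    exact (Submodule.mem_bot _).1 this
  have hΦsurj : Function.Surjective Φ := by
    rintro ⟨c, m⟩
    obtain ⟨v, rfl⟩ := S.mkQ_surjective m
    choose b hb using fun i => Submodule.Quotient.mk_surjective _ (v i)
    have hv : v = ∑ i, b i • e i := by
      funext j
      rw [Finset.sum_apply, Finset.sum_eq_single j]
      · have h1 : e j j = Submodule.Quotient.mk 1 := Pi.single_eq_same _ _
        rw [Pi.smul_apply, h1, ← Submodule.Quotient.mk_smul, smul_eq_mul, mul_one, hb]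
      · intro i _ hij
        have h1 : e i j = 0 := Pi.single_eq_of_ne hij.symm _
        rw [Pi.smul_apply, h1, smul_zero]
      · intro h; exact absurd (Finset.mem_univ j) h
    refine ⟨c • 1 + ∑ i, b i * ((MonoidAlgebra.of (ZMod p) G) (φ (FreeGroup.of i)) - 1), ?_⟩
    change (ε _, D _) = _
    rw [map_add, map_add, map_smul, map_smul, hε1, hD1, smul_zero, zero_add, map_sum, map_sum]
    refine Prod.ext ?_ ?_
    · simp only [hε, Finset.sum_const_zero, add_zero, smul_eq_mul, mul_one]
    · simp only [hD, hδ, fox_of]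
      rw [hv, map_sum]
      simp only [map_smul, ē]
  -- first dimension estimate
  have hfin1 : Module.Finite (ZMod p) ((MonoidAlgebra (ZMod p) G) ⧸ (Aug p G) ^ (n + 1)) := finite_quot φ hφ (Nat.succ_pos n)
  have hdim1 : 1 + Module.finrank (ZMod p) M ≤ growth p G (n + 1) := by
    have hsurj : Function.Surjective (((Aug p G) ^ (n + 1)).liftQ Φ hΦker) := by
      intro y
      obtain ⟨x, rfl⟩ := hΦsurj y
      exact ⟨Submodule.Quotient.mk x, rfl⟩
    have h1 := LinearMap.finrank_le_finrank_of_surjective hsurj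
    rw [Module.finrank_prod, Module.finrank_self] at h1
    exact h1
  -- second dimension estimate
  have hM'dim : Module.finrank (ZMod p) (Fin d → Q) = d * growth p G n := by
    rw [Module.finrank_pi_fintype, Finset.sum_const, Finset.card_univ, Fintype.card_fin,
      smul_eq_mul, growth_eq]
  have hkillrel : ∀ i : ι, ∀ m : ℕ, n + 1 ≤ m + deg i → ∀ c ∈ (Aug p G) ^ m,
      c • (fox (p := p) φ e (ρ i)).m = 0 := fun i m hm c hc =>
    kill_rel φ ρ deg hdeg hdeg1 hkillQ e i hm hc
  have hdle : ∀ i : s, deg i ≤ n := fun i => (hs i).1 i.2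
  have hex : ∀ i : s, ∃ T : ((MonoidAlgebra (ZMod p) G) ⧸ (Aug p G) ^ (n + 1 - deg i)) →ₗ[ZMod p] (Fin d → Q),
      ∀ c : (MonoidAlgebra (ZMod p) G), T (Submodule.Quotient.mk c) = c • (fox (p := p) φ e (ρ i)).m := by
    intro i
    refine exists_map (p := p) (G := G) (fox (p := p) φ e (ρ i)).m (fun c hc => ?_)
    exact hkillrel i (n + 1 - deg i) (by have := hdle i; omega) c hc
  choose T hT using hex
  let TT : (∀ i : s, (MonoidAlgebra (ZMod p) G) ⧸ (Aug p G) ^ (n + 1 - deg i)) →ₗ[ZMod p] (Fin d → Q) :=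
    ∑ i : s, (T i) ∘ₗ (LinearMap.proj i)
  have hTT : ∀ c : s → (MonoidAlgebra (ZMod p) G), TT (fun i => Submodule.Quotient.mk (c i)) =
      ∑ i : s, c i • (fox (p := p) φ e (ρ i)).m := by
    intro c
    simp only [TT, LinearMap.sum_apply, LinearMap.comp_apply, LinearMap.proj_apply, hT]
  have hSle : ∀ y ∈ S, ∃ c : s → (MonoidAlgebra (ZMod p) G), y = ∑ i : s, c i • (fox (p := p) φ e (ρ i)).m := by
    intro y hy
    induction hy using Submodule.span_induction with
    | mem y hy =>
      obtain ⟨i, rfl⟩ := hy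
      by_cases hi : i ∈ s
      · refine ⟨Pi.single ⟨i, hi⟩ 1, ?_⟩
        rw [Finset.sum_eq_single ⟨i, hi⟩]
        · rw [Pi.single_eq_same, one_smul]
        · intro j _ hj
          rw [Pi.single_eq_of_ne hj, zero_smul]
        · intro h; exact absurd (Finset.mem_univ _) h
      · refine ⟨0, ?_⟩
        have hlt : n < deg i := by
          by_contra h
          exact hi ((hs i).2 (not_lt.1 h))
        have h1 := hkillrel i 0 (by omega) 1 (by rw [pow_zero]; exact Submodule.one_le.1 le_rfl)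
        rw [one_smul] at h1
        simp only [Pi.zero_apply, zero_smul, Finset.sum_const_zero]
        exact h1
    | zero => exact ⟨0, by simp⟩
    | add y z _ _ hy hz =>
      obtain ⟨c, rfl⟩ := hy
      obtain ⟨c', rfl⟩ := hz
      refine ⟨c + c', ?_⟩
      rw [← Finset.sum_add_distrib]
      exact Finset.sum_congr rfl fun i _ => by rw [Pi.add_apply, add_smul]
    | smul a y _ hy =>
      obtain ⟨c, rfl⟩ := hy
      refine ⟨fun i => a * c i, ?_⟩
      rw [Finset.smul_sum]
      exact Finset.sum_congr rfl fun i _ => by rw [mul_smul]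
  have hfin2 : ∀ i : s, Module.Finite (ZMod p) ((MonoidAlgebra (ZMod p) G) ⧸ (Aug p G) ^ (n + 1 - deg i)) := fun i =>
    finite_quot φ hφ (by have := hdle i; omega)
  have hdim2 : d * growth p G n ≤ Module.finrank (ZMod p) M +
      ∑ i ∈ s, growth p G (n + 1 - deg i) := by
    let f : (Fin d → Q) →ₗ[ZMod p] M := S.mkQ.restrictScalars (ZMod p)
    have h1 := LinearMap.finrank_range_add_finrank_ker f
    have h2 : Module.finrank (ZMod p) (LinearMap.range f) ≤ Module.finrank (ZMod p) M :=
      Submodule.finrank_le _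
    have h3 : LinearMap.ker f ≤ LinearMap.range TT := by
      intro y hy
      rw [LinearMap.mem_ker] at hy
      have hyS : y ∈ S := by
        have : S.mkQ y = 0 := hy
        rwa [Submodule.mkQ_apply, Submodule.Quotient.mk_eq_zero] at this
      obtain ⟨c, hc⟩ := hSle y hyS
      exact ⟨fun i => Submodule.Quotient.mk (c i), by rw [hTT, hc]⟩
    have h4 : Module.finrank (ZMod p) (LinearMap.ker f) ≤
        Module.finrank (ZMod p) (LinearMap.range TT) := Submodule.finrank_mono h3
    have h5 : Module.finrank (ZMod p) (LinearMap.range TT) ≤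
        Module.finrank (ZMod p) (∀ i : s, (MonoidAlgebra (ZMod p) G) ⧸ (Aug p G) ^ (n + 1 - deg i)) :=
      LinearMap.finrank_range_le TT
    have h6 : Module.finrank (ZMod p) (∀ i : s, (MonoidAlgebra (ZMod p) G) ⧸ (Aug p G) ^ (n + 1 - deg i)) =
        ∑ i ∈ s, growth p G (n + 1 - deg i) := by
      rw [Module.finrank_pi_fintype]
      exact Finset.sum_coe_sort s (fun i => growth p G (n + 1 - deg i))
    rw [hM'dim] at h1
    omega
  omega

end ineq

end Pool.Agent.H67.PG
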