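import Mathlib
import Pool.Agent.H67.PG.GS

set_option autoImplicit false

open scoped Pointwise

namespace Pool.Agent.H67.PG

open Subgroup

/-- The weighted powers of the augmentation ideal of `F_p[X]`, for elements `x j` of the group
`X` with weights `e j ≥ 1`: the span of all `a (x_{j_1} - 1) ⋯ (x_{j_k} - 1)` with
`e_{j_1} + ... + e_{j_k} ≥ n`.  Recursively, `W 0` is everything and
`W n = ∑ j, W (n - e j) (x j - 1)` for `n > 0`. -/
noncomputable def W (p : ℕ) {X : Type*} [Group X] {d : ℕ} (x : Fin d → X) (e : Fin d → ℕ+) :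
    ℕ → Submodule (ZMod p) (MonoidAlgebra (ZMod p) X)
  | 0 => ⊤
  | n + 1 => ⨆ j, W p x e (n + 1 - e j) *
      Submodule.span (ZMod p) {MonoidAlgebra.of (ZMod p) X (x j) - 1}
termination_by n => n
decreasing_by
  have := (e j).pos
  omega

section basic

variable {p : ℕ} {X : Type*} [Group X] {d : ℕ} (x : Fin d → X) (e : Fin d → ℕ+)


lemma W_zero : W p x e 0 = ⊤ := by rw [W]

lemma W_succ (n : ℕ) : W p x e (n + 1) = ⨆ j, W p x e (n + 1 - e j) *
      Submodule.span (ZMod p) {MonoidAlgebra.of (ZMod p) X (x j) - 1} := by rw [W]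

lemma W_pos {n : ℕ} (hn : 0 < n) : W p x e n = ⨆ j, W p x e (n - e j) *
      Submodule.span (ZMod p) {MonoidAlgebra.of (ZMod p) X (x j) - 1} := by
  obtain ⟨m, rfl⟩ : ∃ m, n = m + 1 := ⟨n - 1, by omega⟩
  exact W_succ x e m

lemma W_mem {n : ℕ} (hn : 0 < n) (j : Fin d) {y : (MonoidAlgebra (ZMod p) X)} (hy : y ∈ W p x e (n - e j)) :
    y * ((MonoidAlgebra.of (ZMod p) X) (x j) - 1) ∈ W p x e n := by
  rw [W_pos x e hn]
  exact Submodule.mem_iSup_of_mem j (Submodule.mul_mem_mul hy (Submodule.mem_span_singleton_self _))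

/-- induction principle -/
lemma W_induction {V : Type*} [AddCommGroup V] [Module (ZMod p) V] {n : ℕ} (hn : 0 < n)
    (f : (MonoidAlgebra (ZMod p) X) →ₗ[ZMod p] V) (S : Submodule (ZMod p) V)
    (h : ∀ j, ∀ b ∈ W p x e (n - e j), f (b * ((MonoidAlgebra.of (ZMod p) X) (x j) - 1)) ∈ S) {y : (MonoidAlgebra (ZMod p) X)}
    (hy : y ∈ W p x e n) : f y ∈ S := by
  have h1 : W p x e n ≤ S.comap f := by
    rw [W_pos x e hn]
    refine iSup_le fun j => ?_
    rw [Submodule.mul_le]
    intro b hb c hc
    rw [Submodule.mem_span_singleton] at hc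
    obtain ⟨r, rfl⟩ := hc
    rw [Submodule.mem_comap, mul_smul_comm, map_smul]
    exact Submodule.smul_mem _ _ (h j b hb)
  exact h1 hy

lemma W_left (n : ℕ) : ∀ (a : (MonoidAlgebra (ZMod p) X)) (y : (MonoidAlgebra (ZMod p) X)), y ∈ W p x e n → a * y ∈ W p x e n := by
  induction n using Nat.strong_induction_on with
  | _ n ih =>
    intro a y hy
    rcases Nat.eq_zero_or_pos n with h | hn
    · subst h; rw [W_zero]; trivial
    · refine W_induction x e hn (LinearMap.mulLeft (ZMod p) a) (W p x e n) ?_ hy
      intro j b hb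
      rw [LinearMap.mulLeft_apply, ← mul_assoc]
      exact W_mem x e hn j (ih _ (by have := (e j).pos; omega) a b hb)

lemma W_anti_succ (n : ℕ) : W p x e (n + 1) ≤ W p x e n := by
  induction n using Nat.strong_induction_on with
  | _ n ih =>
    rcases Nat.eq_zero_or_pos n with h | hn
    · subst h; rw [W_zero]; exact le_top
    · intro y hy
      refine W_induction x e (Nat.succ_pos n) LinearMap.id (W p x e n) ?_ hy
      intro j b hb
      refine W_mem x e hn j ?_
      have hj := (e j).pos
      rcases Nat.lt_or_ge n (e j) with h | h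
      · have h1 : n - (e j : ℕ) = 0 := by omega
        rw [h1, W_zero]; trivial
      · have h1 : n + 1 - (e j : ℕ) = (n - (e j : ℕ)) + 1 := by omega
        rw [Nat.succ_eq_add_one, h1] at hb
        exact ih _ (by omega) hb

lemma W_anti {m n : ℕ} (h : m ≤ n) : W p x e n ≤ W p x e m :=
  antitone_nat_of_succ_le (W_anti_succ x e) h

variable (hx : closure (Set.range x) = ⊤)

include hx in
lemma W_right (n : ℕ) : ∀ y ∈ W p x e n, ∀ g : X, y * (MonoidAlgebra.of (ZMod p) X) g ∈ W p x e n := by
  induction n using Nat.strong_induction_on with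
  | _ n ih =>
    rcases Nat.eq_zero_or_pos n with h | hn
    · subst h; intro y _ g; rw [W_zero]; trivial
    · intro y hy g
      have hg : g ∈ closure (Set.range x) := by rw [hx]; trivial
      have key : (∀ y ∈ W p x e n, y * (MonoidAlgebra.of (ZMod p) X) g ∈ W p x e n) ∧
          (∀ y ∈ W p x e n, y * (MonoidAlgebra.of (ZMod p) X) g⁻¹ ∈ W p x e n) := by
        clear hy
        induction hg using Subgroup.closure_induction with
        | mem g hg =>
          obtain ⟨j, rfl⟩ := hg
          constructor
          · intro y hy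
            have h1 : y * (MonoidAlgebra.of (ZMod p) X) (x j) = y * ((MonoidAlgebra.of (ZMod p) X) (x j) - 1) + y := by
              rw [mul_sub, mul_one]; abel
            rw [h1]
            exact add_mem (W_mem x e hn j (W_anti x e (Nat.sub_le _ _) hy)) hy
          · intro y hy
            have h1 : y * (MonoidAlgebra.of (ZMod p) X) (x j)⁻¹ = y - (y * (MonoidAlgebra.of (ZMod p) X) (x j)⁻¹) * ((MonoidAlgebra.of (ZMod p) X) (x j) - 1) := by
              rw [mul_sub, mul_one, mul_assoc, ← map_mul, inv_mul_cancel, map_one, mul_one]; abel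
            rw [h1]
            refine sub_mem hy (W_mem x e hn j ?_)
            exact ih _ (by have := (e j).pos; omega) y (W_anti x e (Nat.sub_le _ _) hy) _
        | one =>
          constructor
          · intro y hy; rw [map_one, mul_one]; exact hy
          · intro y hy; rw [inv_one, map_one, mul_one]; exact hy
        | mul a b _ _ ha hb =>
          constructor
          · intro y hy
            rw [map_mul, ← mul_assoc]
            exact hb.1 _ (ha.1 _ hy)
          · intro y hy
            rw [mul_inv_rev, map_mul, ← mul_assoc]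
            exact ha.2 _ (hb.2 _ hy)
        | inv a _ ha =>
          refine ⟨ha.2, ?_⟩
          rw [inv_inv]
          exact ha.1
      exact key.1 y hy

include hx in
lemma W_right' {n : ℕ} {y : (MonoidAlgebra (ZMod p) X)} (hy : y ∈ W p x e n) (a : (MonoidAlgebra (ZMod p) X)) : y * a ∈ W p x e n := by
  have ha : a ∈ Submodule.span (ZMod p) (Set.range (MonoidAlgebra.of (ZMod p) X)) := by
    rw [span_of_top]; trivial
  induction ha using Submodule.span_induction with
  | mem b hb =>
    obtain ⟨g, rfl⟩ := hb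
    exact W_right x e hx n y hy g
  | zero => rw [mul_zero]; exact zero_mem _
  | add b c _ _ hb hc => rw [mul_add]; exact add_mem hb hc
  | smul r b _ hb => rw [mul_smul_comm]; exact Submodule.smul_mem _ _ hb

include hx in
/-- multiplicativity of the filtration -/
lemma W_mul (b : ℕ) : ∀ (a : ℕ) (y z : (MonoidAlgebra (ZMod p) X)), y ∈ W p x e a → z ∈ W p x e b →
    y * z ∈ W p x e (a + b) := by
  induction b using Nat.strong_induction_on with
  | _ b ih =>
    intro a y z hy hz
    rcases Nat.eq_zero_or_pos b with h | hb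
    · subst h
      rw [add_zero]
      exact W_right' x e hx hy z
    · have h1 : 0 < a + b := by omega
      refine W_induction x e hb (LinearMap.mulLeft (ZMod p) y) (W p x e (a + b)) ?_ hz
      intro j c hc
      rw [LinearMap.mulLeft_apply, ← mul_assoc]
      refine W_mem x e h1 j ?_
      have h2 := ih _ (by have := (e j).pos; omega) a y c hy hc
      exact W_anti x e (by omega) h2

include hx in
/-- the fundamental formula -/
lemma aug_le_W_one : Aug p X ≤ ⨆ j, (⊤ : Submodule (ZMod p) (MonoidAlgebra (ZMod p) X)) *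
    Submodule.span (ZMod p) {MonoidAlgebra.of (ZMod p) X (x j) - 1} := by
  set S := ⨆ j, (⊤ : Submodule (ZMod p) (MonoidAlgebra (ZMod p) X)) *
    Submodule.span (ZMod p) {MonoidAlgebra.of (ZMod p) X (x j) - 1} with hS
  have hmem : ∀ (j : Fin d) (a : (MonoidAlgebra (ZMod p) X)), a * ((MonoidAlgebra.of (ZMod p) X) (x j) - 1) ∈ S := fun j a =>
    Submodule.mem_iSup_of_mem j
      (Submodule.mul_mem_mul trivial (Submodule.mem_span_singleton_self _))
  have hleft : ∀ (a : (MonoidAlgebra (ZMod p) X)), ∀ y ∈ S, a * y ∈ S := by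
    intro a y hy
    have h1 : S ≤ S.comap (LinearMap.mulLeft (ZMod p) a) := by
      refine iSup_le fun j => ?_
      rw [Submodule.mul_le]
      intro b _ c hc
      rw [Submodule.mem_span_singleton] at hc
      obtain ⟨r, rfl⟩ := hc
      rw [Submodule.mem_comap, LinearMap.mulLeft_apply, mul_smul_comm, mul_smul_comm, ← mul_assoc]
      exact Submodule.smul_mem _ _ (hmem j _)
    exact h1 hy
  rw [Aug, Submodule.span_le]
  rintro _ ⟨g, rfl⟩
  have hg : g ∈ closure (Set.range x) := by rw [hx]; trivial
  simp only [SetLike.mem_coe]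
  induction hg using Subgroup.closure_induction with
  | mem g hg =>
    obtain ⟨j, rfl⟩ := hg
    have := hmem j 1
    rwa [one_mul] at this
  | one => rw [map_one, sub_self]; exact zero_mem _
  | mul a b _ _ ha hb =>
    have h1 : (MonoidAlgebra.of (ZMod p) X) (a * b) - 1 = (MonoidAlgebra.of (ZMod p) X) a * ((MonoidAlgebra.of (ZMod p) X) b - 1) + ((MonoidAlgebra.of (ZMod p) X) a - 1) := by
      rw [mul_sub, mul_one, map_mul]; abel
    rw [h1]
    exact add_mem (hleft _ _ hb) ha
  | inv a _ ha =>
    have h1 : (MonoidAlgebra.of (ZMod p) X) a⁻¹ - 1 = -((MonoidAlgebra.of (ZMod p) X) a⁻¹ * ((MonoidAlgebra.of (ZMod p) X) a - 1)) := by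
      rw [mul_sub, mul_one, ← map_mul, inv_mul_cancel, map_one]; abel
    rw [h1]
    exact neg_mem (hleft _ _ ha)

include hx in
lemma aug_pow_le_W (n : ℕ) : (Aug p X) ^ n ≤ W p x e n := by
  induction n with
  | zero => rw [W_zero]; exact le_top
  | succ n ih =>
    rw [pow_succ]
    have h1 : (Aug p X) ^ n * Aug p X ≤ (Aug p X) ^ n * (⨆ j, (⊤ : Submodule (ZMod p) (MonoidAlgebra (ZMod p) X)) *
        Submodule.span (ZMod p) {MonoidAlgebra.of (ZMod p) X (x j) - 1}) :=
      mul_le_mul' le_rfl (aug_le_W_one x hx)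
    refine h1.trans ?_
    rw [Submodule.mul_iSup, W_succ]
    refine iSup_mono fun j => ?_
    rw [← mul_assoc]
    refine mul_le_mul' ?_ le_rfl
    have hj := (e j).pos
    rcases Nat.eq_zero_or_pos n with h | hn
    · subst h
      have : 0 + 1 - (e j : ℕ) = 0 := by omega
      rw [this, W_zero]; exact le_top
    · exact (aug_pow_mul_top hn).trans (ih.trans (W_anti x e (by omega)))

end basic

section map

variable {p : ℕ} {X G : Type*} [Group X] [Group G] {d : ℕ} (x : Fin d → X) (e : Fin d → ℕ+)
  (φ : X →* G)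

lemma map_W (n : ℕ) : ∀ b ∈ W p x e n,
    MonoidAlgebra.mapDomainAlgHom (ZMod p) (ZMod p) φ b ∈ W p (fun j => φ (x j)) e n := by
  induction n using Nat.strong_induction_on with
  | _ n ih =>
    intro b hb
    rcases Nat.eq_zero_or_pos n with h | hn
    · subst h; rw [W_zero]; trivial
    · refine W_induction x e hn
        (MonoidAlgebra.mapDomainAlgHom (ZMod p) (ZMod p) φ).toLinearMap
        (W p (fun j => φ (x j)) e n) ?_ hb
      intro j c hc
      have h1 : (MonoidAlgebra.mapDomainAlgHom (ZMod p) (ZMod p) φ).toLinearMap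
          (c * (MonoidAlgebra.of (ZMod p) X (x j) - 1)) =
          MonoidAlgebra.mapDomainAlgHom (ZMod p) (ZMod p) φ c *
            (MonoidAlgebra.of (ZMod p) G (φ (x j)) - 1) := by
        rw [AlgHom.toLinearMap_apply, map_mul, map_sub, map_one]
        congr 2
        simp
      rw [h1]
      exact W_mem (fun j => φ (x j)) e hn j (ih _ (by have := (e j).pos; omega) c hc)

end map

end Pool.Agent.H67.PG
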