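import Mathlib
import Pool.Agent.H67.PG.WFilt

set_option autoImplicit false

open scoped Pointwise

namespace Pool.Agent.H67.PG

open Subgroup Filter Topology

section ineq

variable {p : ℕ} [Fact p.Prime] {G : Type*} [Group G] {d : ℕ}
  (φ : FreeGroup (Fin d) →* G) (hφ : Function.Surjective φ) (e : Fin d → ℕ+)
  {ι : Type*} (ρ : ι → FreeGroup (Fin d)) (deg : ι → ℕ+)
  (hker : φ.ker = normalClosure (Set.range ρ))
  (hdeg : ∀ i, MonoidAlgebra.of (ZMod p) (FreeGroup (Fin d)) (ρ i) - 1 ∈
    W p FreeGroup.of e (deg i))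


/-- dimension of the quotient by the weighted power -/
noncomputable def wgrowth (p : ℕ) {X : Type*} [Group X] {d : ℕ} (x : Fin d → X) (e : Fin d → ℕ+)
    (n : ℕ) : ℕ := Module.finrank (ZMod p) (MonoidAlgebra (ZMod p) X ⧸ W p x e n)

include hφ in
lemma closure_gen : closure (Set.range (fun j : Fin d => φ (FreeGroup.of j))) = ⊤ := by
  rw [eq_top_iff]
  intro g hh
  clear hh
  obtain ⟨x, rfl⟩ := hφ g
  induction x using FreeGroup.induction_on with
  | C1 => rw [map_one]; exact one_mem _
  | of i => exact subset_closure ⟨i, rfl⟩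
  | inv_of i hi => rw [map_inv]; exact inv_mem hi
  | mul x y hx hy => rw [map_mul]; exact mul_mem hx hy

include hφ in
lemma finite_W (n : ℕ) :
    Module.Finite (ZMod p) ((MonoidAlgebra (ZMod p) G) ⧸ W p (fun j : Fin d => φ (FreeGroup.of j)) e n) ∧ wgrowth p (fun j : Fin d => φ (FreeGroup.of j)) e n ≤ growth p G (n + 1) := by
  have h1 := finite_quot (p := p) φ hφ (Nat.succ_pos n)
  have h2 : (Aug p G) ^ (n + 1) ≤ W p (fun j : Fin d => φ (FreeGroup.of j)) e n :=
    (aug_pow_le_W (fun j : Fin d => φ (FreeGroup.of j)) e (closure_gen φ hφ) (n + 1)).trans (W_anti _ e (Nat.le_succ n))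
  let f : ((MonoidAlgebra (ZMod p) G) ⧸ (Aug p G) ^ (n + 1)) →ₗ[ZMod p] ((MonoidAlgebra (ZMod p) G) ⧸ W p (fun j : Fin d => φ (FreeGroup.of j)) e n) :=
    Submodule.mapQ _ _ LinearMap.id h2
  have hf : Function.Surjective f := by
    intro y
    obtain ⟨y', rfl⟩ := (W p (fun j : Fin d => φ (FreeGroup.of j)) e n).mkQ_surjective y
    exact ⟨Submodule.Quotient.mk y', rfl⟩
  exact ⟨Module.Finite.of_surjective f hf, LinearMap.finrank_le_finrank_of_surjective hf⟩

/-- the weighted power as a left ideal -/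
noncomputable def WI (p : ℕ) {X : Type*} [Group X] {d : ℕ} (x : Fin d → X) (e : Fin d → ℕ+)
    (n : ℕ) : Submodule (MonoidAlgebra (ZMod p) X) (MonoidAlgebra (ZMod p) X) where
  carrier := {y | y ∈ W p x e n}
  zero_mem' := zero_mem (W p x e n)
  add_mem' := fun {a b} ha hb => add_mem (show a ∈ W p x e n from ha) hb
  smul_mem' := fun c y hy => W_left x e n c y hy

lemma wgrowth_eq (n : ℕ) :
    Module.finrank (ZMod p) ((MonoidAlgebra (ZMod p) G) ⧸ WI p (fun j : Fin d => φ (FreeGroup.of j)) e n) = wgrowth p (fun j : Fin d => φ (FreeGroup.of j)) e n := by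
  have h : (WI p (fun j : Fin d => φ (FreeGroup.of j)) e n).restrictScalars (ZMod p) = W p (fun j : Fin d => φ (FreeGroup.of j)) e n := by
    ext x; exact Iff.rfl
  rw [wgrowth, ← h]
  exact (LinearEquiv.finrank_eq
    (Submodule.Quotient.restrictScalarsEquiv (ZMod p) (WI p (fun j : Fin d => φ (FreeGroup.of j)) e n))).symm

include hφ in
lemma finite_WI (n : ℕ) : Module.Finite (ZMod p) ((MonoidAlgebra (ZMod p) G) ⧸ WI p (fun j : Fin d => φ (FreeGroup.of j)) e n) := by
  have h : (WI p (fun j : Fin d => φ (FreeGroup.of j)) e n).restrictScalars (ZMod p) = W p (fun j : Fin d => φ (FreeGroup.of j)) e n := by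
    ext x; exact Iff.rfl
  have h1 := (finite_W (p := p) φ hφ e n).1
  rw [← h] at h1
  exact Module.Finite.equiv (Submodule.Quotient.restrictScalarsEquiv (ZMod p) (WI p (fun j : Fin d => φ (FreeGroup.of j)) e n))

/-- the map from the quotient to the cyclic submodule generated by `v` -/
lemma exists_mapW {V : Type*} [AddCommGroup V] [Module (MonoidAlgebra (ZMod p) G) V]
    [Module (ZMod p) V] [IsScalarTower (ZMod p) (MonoidAlgebra (ZMod p) G) V]
    (S : Submodule (ZMod p) (MonoidAlgebra (ZMod p) G)) (v : V)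
    (h : ∀ c ∈ S, c • v = 0) :
    ∃ T : ((MonoidAlgebra (ZMod p) G) ⧸ S) →ₗ[ZMod p] V, ∀ c : (MonoidAlgebra (ZMod p) G), T (Submodule.Quotient.mk c) = c • v := by
  let T₀ : (MonoidAlgebra (ZMod p) G) →ₗ[ZMod p] V := (LinearMap.toSpanSingleton (MonoidAlgebra (ZMod p) G) V v).restrictScalars (ZMod p)
  have hT₀ : S ≤ LinearMap.ker T₀ := by
    intro c hc
    rw [LinearMap.mem_ker]
    exact h c hc
  exact ⟨S.liftQ T₀ hT₀, fun c => rfl⟩

include hφ hdeg in
/-- the Fox derivative of a relator is killed by a weighted power -/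
lemma kill_relW {n : ℕ} {V : Type*} [AddCommGroup V]
    [Module (MonoidAlgebra (ZMod p) G) V]
    [Module (ZMod p) V] [IsScalarTower (ZMod p) (MonoidAlgebra (ZMod p) G) V]
    (v : Fin d → V) (hV : ∀ j, ∀ c ∈ W p (fun j : Fin d => φ (FreeGroup.of j)) e (n - e j), c • v j = 0) (i : ι)
    {c : (MonoidAlgebra (ZMod p) G)} (hc : c ∈ W p (fun j : Fin d => φ (FreeGroup.of j)) e (n - deg i)) :
    c • (fox (p := p) φ v (ρ i)).m = 0 := by
  let D : MonoidAlgebra (ZMod p) (FreeGroup (Fin d)) →ₗ[ZMod p] V :=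
    lin (p := p) (fun x => (fox (p := p) φ v x).m)
  let L : V →ₗ[ZMod p] V :=
    { toFun := fun v => c • v
      map_add' := fun v w => smul_add c v w
      map_smul' := fun r v => by
        rw [RingHom.id_apply]
        exact (smul_algebra_smul_comm r c v) }
  have h1 : (L ∘ₗ D) (MonoidAlgebra.of (ZMod p) (FreeGroup (Fin d)) (ρ i) - 1) ∈
      (⊥ : Submodule (ZMod p) V) := by
    refine W_induction FreeGroup.of e (deg i).pos (L ∘ₗ D) ⊥ ?_ (hdeg i)
    intro j b hb
    rw [Submodule.mem_bot]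
    change c • D _ = 0
    have h2 : D (b * (MonoidAlgebra.of (ZMod p) (FreeGroup (Fin d)) (FreeGroup.of j) - 1)) =
        MonoidAlgebra.mapDomainAlgHom (ZMod p) (ZMod p) φ b •
          (fox (p := p) φ v (FreeGroup.of j)).m := by
      apply lin_mul (MonoidAlgebra.mapDomainAlgHom (ZMod p) (ZMod p) φ)
      intro x y
      rw [fox_mul]
      congr 2
      simp
    rw [h2, ← mul_smul, fox_of]
    apply hV j
    have h3 := W_mul (fun j : Fin d => φ (FreeGroup.of j)) e (closure_gen φ hφ) _ _ _ _ hc (map_W FreeGroup.of e φ _ b hb)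
    exact W_anti _ e (by omega) h3
  rw [Submodule.mem_bot] at h1
  have h3 : D (MonoidAlgebra.of (ZMod p) (FreeGroup (Fin d)) (ρ i) - 1) =
      (fox (p := p) φ v (ρ i)).m := by
    have e1 : D 1 = 0 := by
      have e2 := lin_of (p := p) (fun x : FreeGroup (Fin d) => (fox (p := p) φ v x).m) 1
      rw [map_one (MonoidAlgebra.of (ZMod p) (FreeGroup (Fin d))), map_one (fox (p := p) φ v),
        Ext.one_m] at e2
      exact e2
    have e3 : D (MonoidAlgebra.of (ZMod p) (FreeGroup (Fin d)) (ρ i)) =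
        (fox (p := p) φ v (ρ i)).m := lin_of (p := p) _ _
    rw [map_sub, e1, e3, sub_zero]
  change c • D _ = 0 at h1
  rw [h3] at h1
  exact h1

include hφ hker hdeg in
/-- the generalised Golod-Shafarevich inequality -/
theorem ggs_ineq {n : ℕ} (hn : 0 < n) (s : Finset ι) (hs : ∀ i, (deg i : ℕ) < n → i ∈ s) :
    1 + ∑ j, wgrowth p (fun j : Fin d => φ (FreeGroup.of j)) e (n - e j) ≤
      wgrowth p (fun j : Fin d => φ (FreeGroup.of j)) e n + ∑ i ∈ s, wgrowth p (fun j : Fin d => φ (FreeGroup.of j)) e (n - deg i) := by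
  classical
  let Q : Fin d → Type _ := fun j => (MonoidAlgebra (ZMod p) G) ⧸ WI p (fun j : Fin d => φ (FreeGroup.of j)) e (n - e j)
  let v : Fin d → (∀ j, Q j) := fun i => Pi.single i (Submodule.Quotient.mk 1)
  have hQfin : ∀ j, Module.Finite (ZMod p) (Q j) := fun j => finite_WI φ hφ e _
  let S : Submodule (MonoidAlgebra (ZMod p) G) (∀ j, Q j) := Submodule.span (MonoidAlgebra (ZMod p) G) (Set.range fun i => (fox (p := p) φ v (ρ i)).m)
  let M := (∀ j, Q j) ⧸ S
  let w : Fin d → M := fun i => S.mkQ (v i)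
  have hMfin : Module.Finite (ZMod p) M :=
    Module.Finite.of_surjective (S.mkQ.restrictScalars (ZMod p)) S.mkQ_surjective
  have hsm : ∀ (c : (MonoidAlgebra (ZMod p) G)) (j : Fin d), c • v j = Pi.single j (Submodule.Quotient.mk c) := by
    intro c j
    rw [← Pi.single_smul, ← Submodule.Quotient.mk_smul, smul_eq_mul, mul_one]
  have hkillv : ∀ j, ∀ c ∈ W p (fun j : Fin d => φ (FreeGroup.of j)) e (n - e j), c • v j = 0 := by
    intro j c hc
    rw [hsm]
    have : (Submodule.Quotient.mk c : Q j) = 0 := (Submodule.Quotient.mk_eq_zero _).2 hc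
    rw [this, Pi.single_zero]
  have hkillw : ∀ j, ∀ c ∈ W p (fun j : Fin d => φ (FreeGroup.of j)) e (n - e j), c • w j = 0 := by
    intro j c hc
    simp only [w]
    rw [← map_smul, hkillv j c hc, map_zero]
  -- the relators act trivially
  have hrel : ∀ i, fox (p := p) φ w (ρ i) = 1 := by
    intro i
    have h1 := fox_map (p := p) φ v S.mkQ (ρ i)
    rw [show (fun i => S.mkQ (v i)) = w from rfl] at h1
    rw [h1]
    apply Ext.ext'
    · change S.mkQ (fox (p := p) φ v (ρ i)).m = 0
      rw [Submodule.mkQ_apply, Submodule.Quotient.mk_eq_zero]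
      exact Submodule.subset_span ⟨i, rfl⟩
    · change (fox (p := p) φ v (ρ i)).g = 1
      rw [fox_g]
      have : ρ i ∈ φ.ker := by
        rw [hker]; exact subset_normalClosure ⟨i, rfl⟩
      exact this
  have hkerle : φ.ker ≤ (fox (p := p) φ w).ker := by
    rw [hker]
    refine normalClosure_le_normal ?_
    rintro _ ⟨i, rfl⟩
    exact hrel i
  let δ : G → M := fun g => (fox (p := p) φ w (Function.surjInv hφ g)).m
  have hδ : ∀ x, δ (φ x) = (fox (p := p) φ w x).m := by
    intro x
    have h1 : φ (Function.surjInv hφ (φ x)) = φ x := Function.surjInv_eq hφ _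
    have h2 : (Function.surjInv hφ (φ x))⁻¹ * x ∈ φ.ker := by
      rw [MonoidHom.mem_ker, map_mul, map_inv, h1, inv_mul_cancel]
    have h3 := hkerle h2
    rw [MonoidHom.mem_ker, map_mul, map_inv, inv_mul_eq_one] at h3
    simp only [δ]
    rw [h3]
  have hδmul : ∀ g h : G, δ (g * h) = δ g + (AlgHom.id (ZMod p) (MonoidAlgebra (ZMod p) G)) ((MonoidAlgebra.of (ZMod p) G) g) • δ h := by
    intro g h
    obtain ⟨x, rfl⟩ := hφ g
    obtain ⟨y, rfl⟩ := hφ h
    rw [← map_mul, hδ, hδ, hδ, fox_mul]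
    rfl
  let D : (MonoidAlgebra (ZMod p) G) →ₗ[ZMod p] M := lin (p := p) δ
  have hD : ∀ (b : (MonoidAlgebra (ZMod p) G)) (g : G), D (b * ((MonoidAlgebra.of (ZMod p) G) g - 1)) = b • δ g := by
    intro b g
    exact lin_mul (AlgHom.id (ZMod p) (MonoidAlgebra (ZMod p) G)) hδmul b g
  have hδ1 : δ 1 = 0 := by
    have := hδ 1
    rw [map_one, map_one, Ext.one_m] at this
    exact this
  have hD1 : D 1 = 0 := by
    have := lin_of (p := p) δ 1
    rw [map_one] at this
    rw [← hδ1]; exact this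
  let ε : (MonoidAlgebra (ZMod p) G) →ₗ[ZMod p] ZMod p := lin (p := p) (fun _ => 1)
  have hε : ∀ (b : (MonoidAlgebra (ZMod p) G)) (g : G), ε (b * ((MonoidAlgebra.of (ZMod p) G) g - 1)) = 0 := by
    intro b g
    have : (ε ∘ₗ (LinearMap.mulRight (ZMod p) ((MonoidAlgebra.of (ZMod p) G) g - 1))) = 0 := by
      apply lin_ext
      intro x
      simp only [LinearMap.comp_apply, LinearMap.mulRight_apply, LinearMap.zero_apply]
      rw [mul_sub, mul_one, ← map_mul, map_sub]
      simp only [ε, lin_of, sub_self]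
    exact LinearMap.congr_fun this b
  have hε1 : ε 1 = 1 := by
    have := lin_of (p := p) (fun _ : G => (1 : ZMod p)) 1
    rw [map_one] at this
    exact this
  let Φ : (MonoidAlgebra (ZMod p) G) →ₗ[ZMod p] (ZMod p × M) := ε.prod D
  have hΦker : W p (fun j : Fin d => φ (FreeGroup.of j)) e n ≤ LinearMap.ker Φ := by
    intro x hx
    rw [LinearMap.mem_ker]
    have := W_induction (fun j : Fin d => φ (FreeGroup.of j)) e hn Φ ⊥ (fun j b hb => by
      rw [Submodule.mem_bot]
      change (ε (b * ((MonoidAlgebra.of (ZMod p) G) (φ (FreeGroup.of j)) - 1)), D (b * ((MonoidAlgebra.of (ZMod p) G) (φ (FreeGroup.of j)) - 1))) = 0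
      rw [hε, hD, hδ, fox_of, hkillw j b hb]; rfl) hx
    exact (Submodule.mem_bot _).1 this
  have hΦsurj : Function.Surjective Φ := by
    rintro ⟨c, m⟩
    obtain ⟨u, rfl⟩ := S.mkQ_surjective m
    choose b hb using fun i => Submodule.Quotient.mk_surjective _ (u i)
    have hu : u = ∑ i, b i • v i := by
      funext j
      rw [Finset.sum_apply, Finset.sum_eq_single j]
      · rw [hsm, Pi.single_eq_same, hb]
      · intro i _ hij
        rw [hsm, Pi.single_eq_of_ne hij.symm]
      · intro h; exact absurd (Finset.mem_univ j) h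
    refine ⟨c • 1 + ∑ i, b i * ((MonoidAlgebra.of (ZMod p) G) (φ (FreeGroup.of i)) - 1), ?_⟩
    change (ε _, D _) = _
    rw [map_add, map_add, map_smul, map_smul, hε1, hD1, smul_zero, zero_add, map_sum, map_sum]
    refine Prod.ext ?_ ?_
    · simp only [hε, Finset.sum_const_zero, add_zero, smul_eq_mul, mul_one]
    · simp only [hD, hδ, fox_of]
      rw [hu, map_sum]
      simp only [map_smul, w]
  -- first dimension estimate
  have hfin1 : Module.Finite (ZMod p) ((MonoidAlgebra (ZMod p) G) ⧸ W p (fun j : Fin d => φ (FreeGroup.of j)) e n) := (finite_W φ hφ e n).1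
  have hdim1 : 1 + Module.finrank (ZMod p) M ≤ wgrowth p (fun j : Fin d => φ (FreeGroup.of j)) e n := by
    have hsurj : Function.Surjective ((W p (fun j : Fin d => φ (FreeGroup.of j)) e n).liftQ Φ hΦker) := by
      intro y
      obtain ⟨x, rfl⟩ := hΦsurj y
      exact ⟨Submodule.Quotient.mk x, rfl⟩
    have h1 := LinearMap.finrank_le_finrank_of_surjective hsurj
    rw [Module.finrank_prod, Module.finrank_self] at h1
    exact h1
  -- second dimension estimate
  have hM'dim : Module.finrank (ZMod p) (∀ j, Q j) = ∑ j, wgrowth p (fun j : Fin d => φ (FreeGroup.of j)) e (n - e j) := by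
    rw [Module.finrank_pi_fintype]
    exact Finset.sum_congr rfl fun j _ => wgrowth_eq φ e _
  have hkillrel : ∀ i : ι, ∀ c ∈ W p (fun j : Fin d => φ (FreeGroup.of j)) e (n - deg i),
      c • (fox (p := p) φ v (ρ i)).m = 0 := fun i c hc =>
    kill_relW φ hφ e ρ deg hdeg v hkillv i hc
  have hex : ∀ i : s, ∃ T : ((MonoidAlgebra (ZMod p) G) ⧸ W p (fun j : Fin d => φ (FreeGroup.of j)) e (n - deg i)) →ₗ[ZMod p] (∀ j, Q j),
      ∀ c : (MonoidAlgebra (ZMod p) G), T (Submodule.Quotient.mk c) = c • (fox (p := p) φ v (ρ i)).m := by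
    intro i
    exact exists_mapW (p := p) (G := G) _ (fox (p := p) φ v (ρ i)).m (fun c hc =>
      hkillrel i c hc)
  choose T hT using hex
  let TT : (∀ i : s, (MonoidAlgebra (ZMod p) G) ⧸ W p (fun j : Fin d => φ (FreeGroup.of j)) e (n - deg i)) →ₗ[ZMod p] (∀ j, Q j) :=
    ∑ i : s, (T i) ∘ₗ (LinearMap.proj i)
  have hTT : ∀ c : s → (MonoidAlgebra (ZMod p) G), TT (fun i => Submodule.Quotient.mk (c i)) =
      ∑ i : s, c i • (fox (p := p) φ v (ρ i)).m := by
    intro c
    simp only [TT, LinearMap.sum_apply, LinearMap.comp_apply, LinearMap.proj_apply, hT]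
  have hz : ∀ y : (∀ j, Q j), (0 : (MonoidAlgebra (ZMod p) G)) • y = 0 := fun y => zero_smul (MonoidAlgebra (ZMod p) G) y
  have hadd : ∀ (a b : (MonoidAlgebra (ZMod p) G)) (y : ∀ j, Q j), (a + b) • y = a • y + b • y :=
    fun a b y => add_smul a b y
  have hSle : ∀ y ∈ S, ∃ c : s → (MonoidAlgebra (ZMod p) G), y = ∑ i : s, c i • (fox (p := p) φ v (ρ i)).m := by
    intro y hy
    induction hy using Submodule.span_induction with
    | mem y hy =>
      obtain ⟨i, rfl⟩ := hy
      by_cases hi : i ∈ s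
      · refine ⟨Pi.single ⟨i, hi⟩ 1, ?_⟩
        rw [Finset.sum_eq_single ⟨i, hi⟩]
        · rw [Pi.single_eq_same, one_smul]
        · intro j _ hj
          rw [Pi.single_eq_of_ne hj]
          exact hz _
        · intro h; exact absurd (Finset.mem_univ _) h
      · refine ⟨0, ?_⟩
        have hlt : n ≤ deg i := by
          by_contra h
          exact hi (hs i (not_le.1 h))
        have h0 : n - (deg i : ℕ) = 0 := by omega
        have h1 := hkillrel i 1 (by rw [h0, W_zero]; trivial)
        rw [one_smul] at h1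
        have h2 : ∑ i : s, (0 : s → (MonoidAlgebra (ZMod p) G)) i • (fox (p := p) φ v (ρ i)).m = 0 :=
          Finset.sum_eq_zero (fun i _ => hz _)
        rw [h2]
        exact h1
    | zero => exact ⟨0, (Finset.sum_eq_zero (fun i _ => hz _)).symm⟩
    | add y z _ _ hy hz =>
      obtain ⟨c, rfl⟩ := hy
      obtain ⟨c', rfl⟩ := hz
      refine ⟨c + c', ?_⟩
      rw [← Finset.sum_add_distrib]
      exact Finset.sum_congr rfl fun i _ => (hadd (c i) (c' i) _).symm
    | smul a y _ hy =>
      obtain ⟨c, rfl⟩ := hy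
      refine ⟨fun i => a * c i, ?_⟩
      rw [Finset.smul_sum]
      exact Finset.sum_congr rfl fun i _ => by rw [mul_smul]
  have hfin2 : ∀ i : s, Module.Finite (ZMod p) ((MonoidAlgebra (ZMod p) G) ⧸ W p (fun j : Fin d => φ (FreeGroup.of j)) e (n - deg i)) := fun i =>
    (finite_W φ hφ e _).1
  have hdim2 : ∑ j, wgrowth p (fun j : Fin d => φ (FreeGroup.of j)) e (n - e j) ≤ Module.finrank (ZMod p) M +
      ∑ i ∈ s, wgrowth p (fun j : Fin d => φ (FreeGroup.of j)) e (n - deg i) := by
    let f : (∀ j, Q j) →ₗ[ZMod p] M := S.mkQ.restrictScalars (ZMod p)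
    have h1 := LinearMap.finrank_range_add_finrank_ker f
    have h2 : Module.finrank (ZMod p) (LinearMap.range f) ≤ Module.finrank (ZMod p) M :=
      Submodule.finrank_le _
    have h3 : LinearMap.ker f ≤ LinearMap.range TT := by
      intro y hy
      rw [LinearMap.mem_ker] at hy
      have hyS : y ∈ S := by
        have : S.mkQ y = 0 := hy
        rwa [Submodule.mkQ_apply, Submodule.Quotient.mk_eq_zero] at this
      obtain ⟨c, hc⟩ := hSle y hyS
      exact ⟨fun i => Submodule.Quotient.mk (c i), by rw [hTT, hc]⟩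
    have h4 : Module.finrank (ZMod p) (LinearMap.ker f) ≤
        Module.finrank (ZMod p) (LinearMap.range TT) := Submodule.finrank_mono h3
    have h5 : Module.finrank (ZMod p) (LinearMap.range TT) ≤
        Module.finrank (ZMod p) (∀ i : s, (MonoidAlgebra (ZMod p) G) ⧸ W p (fun j : Fin d => φ (FreeGroup.of j)) e (n - deg i)) :=
      LinearMap.finrank_range_le TT
    have h6 : Module.finrank (ZMod p) (∀ i : s, (MonoidAlgebra (ZMod p) G) ⧸ W p (fun j : Fin d => φ (FreeGroup.of j)) e (n - deg i)) =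
        ∑ i ∈ s, wgrowth p (fun j : Fin d => φ (FreeGroup.of j)) e (n - deg i) := by
      rw [Module.finrank_pi_fintype]
      exact Finset.sum_coe_sort s (fun i => wgrowth p (fun j : Fin d => φ (FreeGroup.of j)) e (n - deg i))
    rw [hM'dim] at h1
    omega
  omega

end ineq

end Pool.Agent.H67.PG
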