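import Mathlib
import Pool.Agent.H67.PG.GGS

set_option autoImplicit false

namespace Pool.Agent.H67.PG

open Subgroup Filter Topology

variable {p : ℕ} [Fact p.Prime] {G : Type*} [Group G] {d : ℕ}


lemma wgrowth_zero {X : Type*} [Group X] (x : Fin d → X) (e : Fin d → ℕ+) :
    wgrowth p x e 0 = 0 := by
  rw [wgrowth, W_zero]
  exact Module.finrank_zero_of_subsingleton

/-- the generalised Golod-Shafarevich theorem: the series of the dimensions diverges -/
theorem ggs_unbounded (φ : FreeGroup (Fin d) →* G) (hφ : Function.Surjective φ) (e : Fin d → ℕ+)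
    {ι : Type*} (ρ : ι → FreeGroup (Fin d)) (deg : ι → ℕ+)
    (hker : φ.ker = normalClosure (Set.range ρ))
    (hdeg : ∀ i, MonoidAlgebra.of (ZMod p) (FreeGroup (Fin d)) (ρ i) - 1 ∈
      W p FreeGroup.of e (deg i)) {t : ℝ} (ht : 0 < t) (ht1 : t < 1)
    (hsum : Summable fun i => t ^ (deg i : ℕ))
    (hgs : 1 + ∑' i, t ^ (deg i : ℕ) ≤ ∑ j, t ^ (e j : ℕ)) :
    ¬ ∃ C : ℝ, ∀ N : ℕ, ∑ m ∈ Finset.range (N + 1),
      (wgrowth p (fun j => φ (FreeGroup.of j)) e m : ℝ) * t ^ m ≤ C := by
  classical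
  -- finiteness of the set of relators of bounded degree
  have hfin : ∀ n : ℕ, {i | (deg i : ℕ) ≤ n}.Finite := by
    intro n
    have h1 : ∀ᶠ i in Filter.cofinite, t ^ (deg i : ℕ) < t ^ n :=
      hsum.tendsto_cofinite_zero.eventually (gt_mem_nhds (pow_pos ht n))
    have h2 : {i | ¬ t ^ (deg i : ℕ) < t ^ n}.Finite := h1
    refine h2.subset ?_
    intro i hi
    change ¬ t ^ (deg i : ℕ) < t ^ n
    rw [not_lt]
    exact pow_le_pow_of_le_one ht.le ht1.le hi
  set b : ℕ → ℝ := fun n => (wgrowth p (fun j => φ (FreeGroup.of j)) e n : ℝ) with hb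
  have hb0 : ∀ n, 0 ≤ b n := fun n => Nat.cast_nonneg _
  have hbz : b 0 = 0 := by simp [hb, wgrowth_zero]
  let B : ℕ → ℝ := fun N => ∑ m ∈ Finset.range (N + 1), b m * t ^ m
  have hterm : ∀ m, 0 ≤ b m * t ^ m := fun m => mul_nonneg (hb0 m) (pow_pos ht m).le
  have hBmono : Monotone B := by
    refine monotone_nat_of_le_succ fun N => ?_
    simp only [B]
    rw [Finset.sum_range_succ _ (N + 1)]
    linarith [hterm (N + 1)]
  have hB0 : ∀ N, 0 ≤ B N := fun N => Finset.sum_nonneg fun m _ => hterm m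
  -- shifted sums
  have hshift : ∀ k N : ℕ, 0 < k → k ≤ N →
      ∑ n ∈ Finset.Icc 1 N, b (n - k) * t ^ n = t ^ k * B (N - k) := by
    intro k N hk hkN
    have h1 : ∑ n ∈ Finset.Icc 1 N, b (n - k) * t ^ n =
        ∑ n ∈ Finset.Icc k N, b (n - k) * t ^ n := by
      refine (Finset.sum_subset ?_ ?_).symm
      · intro n hn
        rw [Finset.mem_Icc] at hn ⊢
        omega
      · intro n hn hn'
        rw [Finset.mem_Icc] at hn hn'
        have h2 : n - k = 0 := by omega
        rw [h2, hbz, zero_mul]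
    rw [h1]
    simp only [B]
    rw [Finset.mul_sum]
    refine Finset.sum_nbij' (fun n => n - k) (fun m => m + k) ?_ ?_ ?_ ?_ ?_
    · intro n hn
      rw [Finset.mem_Icc] at hn
      rw [Finset.mem_range]; omega
    · intro m hm
      rw [Finset.mem_range] at hm
      rw [Finset.mem_Icc]; omega
    · intro n hn
      rw [Finset.mem_Icc] at hn
      change n - k + k = n
      omega
    · intro m _
      change m + k - k = m
      omega
    · intro n hn
      rw [Finset.mem_Icc] at hn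
      have h3 : t ^ n = t ^ k * t ^ (n - k) := by rw [← pow_add]; congr 1; omega
      rw [h3]; ring
  have hshift_le : ∀ k N : ℕ, 0 < k →
      ∑ n ∈ Finset.Icc 1 N, b (n - k) * t ^ n ≤ t ^ k * B N := by
    intro k N hk
    rcases Nat.lt_or_ge N k with h | h
    · have h1 : ∑ n ∈ Finset.Icc 1 N, b (n - k) * t ^ n = 0 := by
        refine Finset.sum_eq_zero fun n hn => ?_
        rw [Finset.mem_Icc] at hn
        have h2 : n - k = 0 := by omega
        rw [h2, hbz, zero_mul]
      rw [h1]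
      exact mul_nonneg (pow_pos ht k).le (hB0 N)
    · rw [hshift k N hk h]
      exact mul_le_mul_of_nonneg_left (hBmono (Nat.sub_le _ _)) (pow_pos ht k).le
  set H : ℝ := ∑' i, t ^ (deg i : ℕ) with hH
  -- the summed inequality
  have hmain : ∀ N : ℕ, 1 ≤ N → (∀ j, (e j : ℕ) ≤ N) →
      t + ∑ j, t ^ (e j : ℕ) * B (N - e j) ≤ B N + H * B N := by
    intro N hN heN
    let s : Finset ι := (hfin N).toFinset
    have hs : ∀ n, n ≤ N → ∀ i, (deg i : ℕ) < n → i ∈ s := by
      intro n hn i hi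
      simp only [s, Set.Finite.mem_toFinset]
      change (deg i : ℕ) ≤ N
      omega
    have h1 : ∀ n ∈ Finset.Icc 1 N, (1 + ∑ j, b (n - e j)) * t ^ n ≤
        (b n + ∑ i ∈ s, b (n - deg i)) * t ^ n := by
      intro n hn
      rw [Finset.mem_Icc] at hn
      refine mul_le_mul_of_nonneg_right ?_ (pow_pos ht n).le
      have := ggs_ineq φ hφ e ρ deg hker hdeg (by omega : 0 < n) s (hs n hn.2)
      simp only [hb]
      exact_mod_cast this
    have h2 := Finset.sum_le_sum h1
    have h3 : ∑ n ∈ Finset.Icc 1 N, (1 + ∑ j, b (n - e j)) * t ^ n =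
        ∑ n ∈ Finset.Icc 1 N, t ^ n + ∑ j, t ^ (e j : ℕ) * B (N - e j) := by
      have h4 : ∀ n ∈ Finset.Icc 1 N, (1 + ∑ j, b (n - e j)) * t ^ n =
          t ^ n + ∑ j, b (n - e j) * t ^ n := by
        intro n _
        rw [add_mul, one_mul, Finset.sum_mul]
      rw [Finset.sum_congr rfl h4, Finset.sum_add_distrib, Finset.sum_comm]
      congr 1
      exact Finset.sum_congr rfl fun j _ => hshift (e j) N (e j).pos (heN j)
    have h5 : ∑ n ∈ Finset.Icc 1 N, (b n + ∑ i ∈ s, b (n - deg i)) * t ^ n ≤ B N + H * B N := by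
      have h6 : ∀ n ∈ Finset.Icc 1 N, (b n + ∑ i ∈ s, b (n - deg i)) * t ^ n =
          b n * t ^ n + ∑ i ∈ s, b (n - deg i) * t ^ n := by
        intro n _
        rw [add_mul, Finset.sum_mul]
      rw [Finset.sum_congr rfl h6, Finset.sum_add_distrib, Finset.sum_comm]
      refine add_le_add ?_ ?_
      · refine Finset.sum_le_sum_of_subset_of_nonneg ?_ (fun m _ _ => hterm m)
        intro n hn
        rw [Finset.mem_Icc] at hn
        rw [Finset.mem_range]; omega
      · calc ∑ i ∈ s, ∑ n ∈ Finset.Icc 1 N, b (n - deg i) * t ^ n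
            ≤ ∑ i ∈ s, t ^ (deg i : ℕ) * B N :=
              Finset.sum_le_sum fun i _ => hshift_le (deg i) N (deg i).pos
          _ = (∑ i ∈ s, t ^ (deg i : ℕ)) * B N := by rw [Finset.sum_mul]
          _ ≤ H * B N := by
            refine mul_le_mul_of_nonneg_right ?_ (hB0 N)
            exact hsum.sum_le_tsum _ (fun i _ => (pow_pos ht _).le)
    have h7 : t ≤ ∑ n ∈ Finset.Icc 1 N, t ^ n := by
      have := Finset.single_le_sum (f := fun n : ℕ => t ^ n)
        (fun i _ => (pow_pos ht _).le) (Finset.mem_Icc.2 ⟨le_rfl, hN⟩)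
      simpa using this
    rw [h3] at h2
    linarith
  rintro ⟨C, hC⟩
  have hbdd : BddAbove (Set.range B) := ⟨C, by rintro _ ⟨N, rfl⟩; exact hC N⟩
  have hlim : Tendsto B atTop (𝓝 (⨆ N, B N)) := tendsto_atTop_ciSup hBmono hbdd
  set L := ⨆ N, B N with hL
  have hL0 : 0 ≤ L := ge_of_tendsto' hlim hB0
  have hlim1 : Tendsto (fun N => t + ∑ j, t ^ (e j : ℕ) * B (N - e j)) atTop
      (𝓝 (t + ∑ j, t ^ (e j : ℕ) * L)) := by
    refine tendsto_const_nhds.add (tendsto_finset_sum _ fun j _ => ?_)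
    refine tendsto_const_nhds.mul ?_
    exact hlim.comp (tendsto_sub_atTop_nat _)
  have hlim2 : Tendsto (fun N => B N + H * B N) atTop (𝓝 (L + H * L)) :=
    hlim.add (tendsto_const_nhds.mul hlim)
  have hle : t + ∑ j, t ^ (e j : ℕ) * L ≤ L + H * L := by
    refine le_of_tendsto_of_tendsto hlim1 hlim2 ?_
    filter_upwards [eventually_ge_atTop (1 + ∑ j, (e j : ℕ))] with N hN
    refine hmain N (by omega) fun j => ?_
    have : (e j : ℕ) ≤ ∑ j, (e j : ℕ) :=
      Finset.single_le_sum (f := fun j => (e j : ℕ)) (fun _ _ => Nat.zero_le _)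
        (Finset.mem_univ j)
    omega
  rw [← Finset.sum_mul] at hle
  have h8 : (1 + H) * L ≤ (∑ j, t ^ (e j : ℕ)) * L := mul_le_mul_of_nonneg_right hgs hL0
  linarith

end Pool.Agent.H67.PG
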