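import Mathlib
import Pool.Agent.H67.PG.Deep
import Pool.Agent.H67.PG.Growth
import Pool.Agent.H67.PG.Elem

set_option autoImplicit false

namespace Pool.Agent.H67.PG

open Subgroup Pool.Agent.H86.PG Filter Topology

variable {G : Type*} [Group G]

lemma geom_le (p r j : ℕ) (hr : r ≤ p) (hp : 1 ≤ p) : ∑ i ∈ Finset.range j, r ^ i ≤ j * p ^ j := by
  calc ∑ i ∈ Finset.range j, r ^ i ≤ ∑ _i ∈ Finset.range j, p ^ j := by
        refine Finset.sum_le_sum fun i hi => ?_
        exact (Nat.pow_le_pow_left hr i).trans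
          (Nat.pow_le_pow_right hp (Finset.mem_range.1 hi).le)
    _ = j * p ^ j := by rw [Finset.sum_const, Finset.card_range, smul_eq_mul]

/-- the growth of the powers of the augmentation ideal is subexponential -/
theorem growth_subexp [Infinite G] {p : ℕ} [Fact p.Prime] (hG : IsPGroup p G) (hRF : RF G)
    (hfin : ∀ H : Subgroup G, (H : Set G).Finite ∨ H.index ≠ 0) {c : ℝ} (hc : 1 < c) :
    ∀ᶠ n : ℕ in atTop, Module.Finite (ZMod p) (MonoidAlgebra (ZMod p) G ⧸ (Aug p G) ^ n) ∧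
      (growth p G n : ℝ) < c ^ n := by
  have hp : p.Prime := Fact.out
  -- finiteness
  have hMF : ∀ n : ℕ, 0 < n →
      Module.Finite (ZMod p) (MonoidAlgebra (ZMod p) G ⧸ (Aug p G) ^ n) := by
    intro n hn
    obtain ⟨z, -, hzi⟩ := deep hG hRF hfin (M := ⊤) (by simp)
    refine (estimate (N := 1) (j := n) hzi (fun i => ?_) hn (by omega)).1
    rw [pow_one]
    exact Submodule.subset_span ⟨z i, rfl⟩
  -- choose d with d^2 = c
  set d : ℝ := Real.sqrt c with hd
  have hd1 : 1 < d := by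
    rw [hd]
    exact Real.lt_sqrt_of_sq_lt (by simpa using hc)
  have hdc : d ^ 2 = c := Real.sq_sqrt (by linarith)
  obtain ⟨N, hN⟩ := pow_unbounded_of_one_lt (p : ℝ) hd1
  have hN0 : 0 < N := by
    rcases Nat.eq_zero_or_pos N with h | h
    · rw [h, pow_zero] at hN
      have : (1 : ℝ) < p := by exact_mod_cast hp.one_lt
      linarith
    · exact h
  -- a deep subgroup
  have : Module.Finite (ZMod p) (MonoidAlgebra (ZMod p) G ⧸ (Aug p G) ^ N) := hMF N hN0
  have : Finite (MonoidAlgebra (ZMod p) G ⧸ (Aug p G) ^ N) := Module.finite_of_finite (ZMod p)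
  have hDi := dimSub_index (p := p) (G := G) hN0
  obtain ⟨z, hzM, hzi⟩ := deep hG hRF hfin hDi
  set m : ℕ := (closure (Set.range z)).index with hm
  -- the bound
  have hbound : ∀ n : ℕ, 0 < n → (growth p G n : ℝ) ≤ ((n : ℝ) + 1) * (p * m) * d ^ n := by
    intro n hn
    set j := n / N + 1 with hj
    have hnj : n ≤ N * j := by
      have := Nat.lt_mul_div_succ n hN0
      rw [hj]
      exact this.le
    have h1 := (estimate (r := p - 1) hzi (fun i => hzM i) hn hnj).2
    have h2 := geom_le p (p - 1) j (Nat.sub_le _ _) hp.one_lt.le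
    have h3 : growth p G n ≤ j * p ^ j * m := h1.trans (Nat.mul_le_mul_right _ h2)
    have h4 : (growth p G n : ℝ) ≤ (j : ℝ) * (p : ℝ) ^ j * m := by exact_mod_cast h3
    have h5 : (j : ℝ) ≤ (n : ℝ) + 1 := by
      have : j ≤ n + 1 := by
        rw [hj]; exact Nat.succ_le_succ (Nat.div_le_self n N)
      exact_mod_cast this
    have h6 : (p : ℝ) ^ j ≤ p * d ^ n := by
      rw [hj, pow_succ, mul_comm]
      refine mul_le_mul_of_nonneg_left ?_ (Nat.cast_nonneg p)
      calc (p : ℝ) ^ (n / N) ≤ (d ^ N) ^ (n / N) :=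
            pow_le_pow_left₀ (Nat.cast_nonneg p) hN.le _
        _ = d ^ (N * (n / N)) := (pow_mul d N (n / N)).symm
        _ ≤ d ^ n := pow_le_pow_right₀ hd1.le (Nat.mul_div_le n N)
    have hdn : 0 < d ^ n := pow_pos (by linarith) n
    have hm0 : (0 : ℝ) ≤ m := Nat.cast_nonneg m
    have hp0 : (0 : ℝ) ≤ p := Nat.cast_nonneg p
    have hj0 : (0 : ℝ) ≤ j := Nat.cast_nonneg j
    calc (growth p G n : ℝ) ≤ (j : ℝ) * (p : ℝ) ^ j * m := h4
      _ ≤ ((n : ℝ) + 1) * (p * d ^ n) * m := by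
          gcongr
      _ = ((n : ℝ) + 1) * (p * m) * d ^ n := by ring
  -- the limit
  have hlim : Tendsto (fun n : ℕ => ((n : ℝ) + 1) * (p * m) / d ^ n) atTop (𝓝 0) := by
    have h1 : Tendsto (fun n : ℕ => (n : ℝ) ^ 1 / d ^ n) atTop (𝓝 0) :=
      tendsto_pow_const_div_const_pow_of_one_lt 1 hd1
    have h2 : Tendsto (fun n : ℕ => (n : ℝ) ^ 0 / d ^ n) atTop (𝓝 0) :=
      tendsto_pow_const_div_const_pow_of_one_lt 0 hd1
    have h3 := (h1.add h2).mul_const ((p : ℝ) * m)
    simp only [add_zero, zero_mul] at h3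
    refine h3.congr fun n => ?_
    rw [pow_one, pow_zero]
    ring
  have hev : ∀ᶠ n : ℕ in atTop, ((n : ℝ) + 1) * (p * m) / d ^ n < 1 :=
    hlim.eventually (gt_mem_nhds one_pos)
  filter_upwards [hev, eventually_gt_atTop 0] with n h1 hn
  refine ⟨hMF n hn, ?_⟩
  have hdn : 0 < d ^ n := pow_pos (by linarith) n
  rw [div_lt_one hdn] at h1
  calc (growth p G n : ℝ) ≤ ((n : ℝ) + 1) * (p * m) * d ^ n := hbound n hn
    _ < d ^ n * d ^ n := mul_lt_mul_of_pos_right h1 hdn
    _ = c ^ n := by rw [← hdc, ← pow_mul, ← pow_add]; congr 1; ring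

end Pool.Agent.H67.PG
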