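import Mathlib
import Pool.Agent.H67.PG.Main
import Pool.Agent.H67.PG.GGSGrowth

set_option autoImplicit false

namespace Pool.Agent.H67.PG

open Subgroup Pool.Agent.H86.PG Filter Topology

variable {p : ℕ} {G : Type*} [Group G]

lemma mem_dimSub {n : ℕ} {hn : 0 < n} {g : G} :
    g ∈ dimSub p G n hn ↔ MonoidAlgebra.of (ZMod p) G g - 1 ∈ (Aug p G) ^ n := Iff.rfl

lemma dimSub_normal {n : ℕ} (hn : 0 < n) : (dimSub p G n hn).Normal := by
  constructor
  intro g hg h
  rw [mem_dimSub] at hg ⊢
  have h1 : MonoidAlgebra.of (ZMod p) G (h * g * h⁻¹) - 1 =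
      MonoidAlgebra.of (ZMod p) G h * ((MonoidAlgebra.of (ZMod p) G g - 1) *
        MonoidAlgebra.of (ZMod p) G h⁻¹) := by
    rw [sub_mul, mul_sub, one_mul, ← map_mul, ← map_mul, ← map_mul, mul_inv_cancel, map_one,
      mul_assoc]
  rw [h1]
  exact top_mul_aug_pow hn (Submodule.mul_mem_mul trivial
    (aug_pow_mul_top hn (Submodule.mul_mem_mul hg trivial)))

/-- the intersection of the dimension subgroups -/
def core (p : ℕ) (G : Type*) [Group G] : Subgroup G :=
  ⨅ n : ℕ, dimSub p G (n + 1) (Nat.succ_pos n)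

lemma core_normal : (core p G).Normal := by
  constructor
  intro g hg h
  rw [core, Subgroup.mem_iInf] at hg ⊢
  intro n
  exact (dimSub_normal (Nat.succ_pos n)).conj_mem g (hg n) h

lemma mem_core {g : G} (hg : g ∈ core p G) {n : ℕ} (hn : 0 < n) : g ∈ dimSub p G n hn := by
  rw [core, Subgroup.mem_iInf] at hg
  obtain ⟨m, rfl⟩ : ∃ m, n = m + 1 := ⟨n - 1, by omega⟩
  exact hg m

section quot

variable [Fact p.Prime]
  (hfinite : ∀ n : ℕ, 0 < n →
    Module.Finite (ZMod p) (MonoidAlgebra (ZMod p) G ⧸ (Aug p G) ^ n))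

include hfinite in
lemma rf_quot [(core p G).Normal] : RF (G ⧸ core p G) := by
  intro q hq
  obtain ⟨g, rfl⟩ := QuotientGroup.mk_surjective q
  have hg : g ∉ core p G := by
    intro h
    exact hq ((QuotientGroup.eq_one_iff g).2 h)
  have hex : ∃ n : ℕ, g ∉ dimSub p G (n + 1) (Nat.succ_pos n) := by
    by_contra hc
    push Not at hc
    apply hg
    rw [core, Subgroup.mem_iInf]
    exact hc
  obtain ⟨n, hn⟩ := hex
  have hnorm := dimSub_normal (p := p) (G := G) (Nat.succ_pos n)
  refine ⟨(dimSub p G (n + 1) (Nat.succ_pos n)).map (QuotientGroup.mk' (core p G)),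
    hnorm.map _ (QuotientGroup.mk'_surjective _), ?_, ?_⟩
  · have h1 := hfinite (n + 1) (Nat.succ_pos n)
    have h2 : Finite (MonoidAlgebra (ZMod p) G ⧸ (Aug p G) ^ (n + 1)) :=
      Module.finite_of_finite (ZMod p)
    have h3 := dimSub_index (p := p) (G := G) (Nat.succ_pos n)
    intro h
    have h4 := Subgroup.index_map_dvd (dimSub p G (n + 1) (Nat.succ_pos n))
      (QuotientGroup.mk'_surjective (core p G))
    rw [h, zero_dvd_iff] at h4
    exact h3 h4
  · rintro ⟨h, hh, hhg⟩
    apply hn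
    have h5 : h⁻¹ * g ∈ core p G := by
      rw [← QuotientGroup.eq]; exact hhg
    have h6 := mem_core h5 (Nat.succ_pos n)
    have h7 := mul_mem hh h6
    rwa [mul_inv_cancel_left] at h7

include hfinite in
lemma growth_quot [(core p G).Normal] {n : ℕ} (hn : 0 < n) :
    Module.Finite (ZMod p) (MonoidAlgebra (ZMod p) (G ⧸ core p G) ⧸
      (Aug p (G ⧸ core p G)) ^ n) ∧ growth p G n ≤ growth p (G ⧸ core p G) n := by
  classical
  set Q := G ⧸ core p G with hQ
  let ψ : MonoidAlgebra (ZMod p) G →ₐ[ZMod p] MonoidAlgebra (ZMod p) Q :=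
    MonoidAlgebra.mapDomainAlgHom (ZMod p) (ZMod p) (QuotientGroup.mk' (core p G))
  have hψof : ∀ g : G, ψ (MonoidAlgebra.of (ZMod p) G g) =
      MonoidAlgebra.of (ZMod p) Q (QuotientGroup.mk g) := by
    intro g
    simp only [ψ, MonoidAlgebra.of_apply, MonoidAlgebra.mapDomainAlgHom_apply,
      MonoidAlgebra.mapDomain_single]
    rfl
  have hψsurj : Function.Surjective ψ := by
    have h1 : (⊤ : Submodule (ZMod p) (MonoidAlgebra (ZMod p) Q)) ≤ LinearMap.range ψ.toLinearMap := by
      rw [← span_of_top, Submodule.span_le]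
      rintro _ ⟨q, rfl⟩
      obtain ⟨g, rfl⟩ := QuotientGroup.mk_surjective q
      exact ⟨_, hψof g⟩
    intro y
    obtain ⟨x, hx⟩ := h1 (Submodule.mem_top (x := y))
    exact ⟨x, hx⟩
  -- the images of the powers of the augmentation ideal
  have hmap : (Aug p G).map ψ.toLinearMap = Aug p Q := by
    rw [Aug, Aug, Submodule.map_span]
    congr 1
    ext y
    constructor
    · rintro ⟨_, ⟨g, rfl⟩, rfl⟩
      refine ⟨QuotientGroup.mk g, ?_⟩
      simp only [AlgHom.toLinearMap_apply, map_sub, map_one, hψof]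
    · rintro ⟨q, rfl⟩
      obtain ⟨g, rfl⟩ := QuotientGroup.mk_surjective q
      refine ⟨_, ⟨g, rfl⟩, ?_⟩
      simp only [AlgHom.toLinearMap_apply, map_sub, map_one, hψof]
  have hmapn : ((Aug p G) ^ n).map ψ.toLinearMap = (Aug p Q) ^ n := by
    rw [Submodule.map_pow, hmap]
  -- the section
  let σ : MonoidAlgebra (ZMod p) Q →ₗ[ZMod p] MonoidAlgebra (ZMod p) G :=
    lin (p := p) (fun q : Q => MonoidAlgebra.of (ZMod p) G q.out)
  have hσ : ∀ x, x - σ (ψ x) ∈ (Aug p G) ^ n := by
    intro x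
    have hx : x ∈ Submodule.span (ZMod p) (Set.range (MonoidAlgebra.of (ZMod p) G)) := by
      rw [span_of_top]; trivial
    induction hx using Submodule.span_induction with
    | mem y hy =>
      obtain ⟨g, rfl⟩ := hy
      rw [hψof]
      have h1 : σ (MonoidAlgebra.of (ZMod p) Q (QuotientGroup.mk g)) =
          MonoidAlgebra.of (ZMod p) G (QuotientGroup.mk g : Q).out := lin_of (p := p) _ _
      rw [h1]
      have h2 : (QuotientGroup.mk g : Q).out⁻¹ * g ∈ core p G := by
        rw [← QuotientGroup.eq]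
        exact QuotientGroup.out_eq' _
      have h3 := mem_core h2 hn
      rw [mem_dimSub] at h3
      have h4 : MonoidAlgebra.of (ZMod p) G g -
          MonoidAlgebra.of (ZMod p) G (QuotientGroup.mk g : Q).out =
          MonoidAlgebra.of (ZMod p) G (QuotientGroup.mk g : Q).out *
            (MonoidAlgebra.of (ZMod p) G ((QuotientGroup.mk g : Q).out⁻¹ * g) - 1) := by
        rw [mul_sub, mul_one, ← map_mul, mul_inv_cancel_left]
      rw [h4]
      exact top_mul_aug_pow hn (Submodule.mul_mem_mul trivial h3)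
    | zero => simp
    | add y z _ _ hy hz =>
      have : y + z - σ (ψ (y + z)) = (y - σ (ψ y)) + (z - σ (ψ z)) := by
        rw [map_add, map_add]; abel
      rw [this]; exact add_mem hy hz
    | smul r y _ hy =>
      have : r • y - σ (ψ (r • y)) = r • (y - σ (ψ y)) := by
        rw [map_smul, map_smul, smul_sub]
      rw [this]; exact Submodule.smul_mem _ _ hy
  have hker : ∀ x, ψ x = 0 → x ∈ (Aug p G) ^ n := by
    intro x hx
    have := hσ x
    rwa [hx, map_zero, sub_zero] at this
  -- the induced map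
  let f : MonoidAlgebra (ZMod p) G →ₗ[ZMod p] (MonoidAlgebra (ZMod p) Q ⧸ (Aug p Q) ^ n) :=
    ((Aug p Q) ^ n).mkQ ∘ₗ ψ.toLinearMap
  have hf1 : (Aug p G) ^ n ≤ LinearMap.ker f := by
    intro x hx
    rw [LinearMap.mem_ker]
    change ((Aug p Q) ^ n).mkQ (ψ x) = 0
    rw [Submodule.mkQ_apply, Submodule.Quotient.mk_eq_zero, ← hmapn]
    exact ⟨x, hx, rfl⟩
  have hf2 : LinearMap.ker f ≤ (Aug p G) ^ n := by
    intro x hx
    rw [LinearMap.mem_ker] at hx
    change ((Aug p Q) ^ n).mkQ (ψ x) = 0 at hx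
    rw [Submodule.mkQ_apply, Submodule.Quotient.mk_eq_zero, ← hmapn] at hx
    obtain ⟨y, hy, hyx⟩ := hx
    have h1 : ψ (x - y) = 0 := by
      rw [map_sub, sub_eq_zero]
      exact hyx.symm
    have h2 := add_mem (hker _ h1) hy
    rwa [sub_add_cancel] at h2
  have hGfin := hfinite n hn
  let g : (MonoidAlgebra (ZMod p) G ⧸ (Aug p G) ^ n) →ₗ[ZMod p]
      (MonoidAlgebra (ZMod p) Q ⧸ (Aug p Q) ^ n) := ((Aug p G) ^ n).liftQ f hf1
  have hgsurj : Function.Surjective g := by
    intro y
    obtain ⟨y', rfl⟩ := ((Aug p Q) ^ n).mkQ_surjective y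
    obtain ⟨x, rfl⟩ := hψsurj y'
    exact ⟨Submodule.Quotient.mk x, rfl⟩
  have hginj : Function.Injective g := by
    rw [← LinearMap.ker_eq_bot, Submodule.ker_liftQ_eq_bot']
    exact le_antisymm hf1 hf2
  have hQfin : Module.Finite (ZMod p) (MonoidAlgebra (ZMod p) Q ⧸ (Aug p Q) ^ n) :=
    Module.Finite.of_surjective g hgsurj
  exact ⟨hQfin, LinearMap.finrank_le_finrank_of_injective hginj⟩

end quot

/-- a finite group has bounded growth -/
lemma growth_le_card [Fact p.Prime] [Finite G] (n : ℕ) : growth p G n ≤ Nat.card G := by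
  have h1 : Module.Finite (ZMod p) (MonoidAlgebra (ZMod p) G) := by
    exact Module.Finite.equiv (MonoidAlgebra.coeffLinearEquiv (S := ZMod p) (M := G) (ZMod p)).symm
  have h2 : growth p G n ≤ Module.finrank (ZMod p) (MonoidAlgebra (ZMod p) G) :=
    Submodule.finrank_quotient_le _
  refine h2.trans ?_
  have : Fintype G := Fintype.ofFinite G
  rw [LinearEquiv.finrank_eq (MonoidAlgebra.coeffLinearEquiv (S := ZMod p) (M := G) (ZMod p)),
    Module.finrank_finsupp_self, Nat.card_eq_fintype_card]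

/-- a `p`-group all of whose subgroups are finite or of finite index has subexponential growth
(no residual finiteness) -/
theorem growth_subexp' [Fact p.Prime] (hG : IsPGroup p G)
    (hfinite : ∀ n : ℕ, 0 < n →
      Module.Finite (ZMod p) (MonoidAlgebra (ZMod p) G ⧸ (Aug p G) ^ n))
    (hfin : ∀ H : Subgroup G, (H : Set G).Finite ∨ H.index ≠ 0) {c : ℝ} (hc : 1 < c) :
    ∀ᶠ n : ℕ in atTop, (growth p G n : ℝ) < c ^ n := by
  have hnorm : (core p G).Normal := core_normal
  have hfin' : ∀ H : Subgroup (G ⧸ core p G), (H : Set (G ⧸ core p G)).Finite ∨ H.index ≠ 0 := by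
    intro H
    rcases hfin (H.comap (QuotientGroup.mk' (core p G))) with h | h
    · left
      have h1 : (H : Set (G ⧸ core p G)) ⊆ (QuotientGroup.mk' (core p G)) ''
          (H.comap (QuotientGroup.mk' (core p G)) : Set G) := by
        intro q hq
        obtain ⟨g, rfl⟩ := QuotientGroup.mk'_surjective (core p G) q
        exact ⟨g, hq, rfl⟩
      exact (h.image _).subset h1
    · right
      rwa [Subgroup.index_comap_of_surjective _ (QuotientGroup.mk'_surjective _)] at h
  have hle : ∀ n : ℕ, 0 < n → growth p G n ≤ growth p (G ⧸ core p G) n := fun n hn =>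
    (growth_quot hfinite hn).2
  rcases finite_or_infinite (G ⧸ core p G) with hF | hI
  · have h1 : ∀ᶠ n : ℕ in atTop, (Nat.card (G ⧸ core p G) : ℝ) < c ^ n :=
      (tendsto_pow_atTop_atTop_of_one_lt hc).eventually_gt_atTop _
    filter_upwards [h1, eventually_gt_atTop 0] with n hn hn0
    refine lt_of_le_of_lt ?_ hn
    exact_mod_cast (hle n hn0).trans (growth_le_card n)
  · have h1 := growth_subexp (hG.to_quotient (core p G)) (rf_quot hfinite) hfin' hc
    filter_upwards [h1, eventually_gt_atTop 0] with n hn hn0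
    refine lt_of_le_of_lt ?_ hn.2
    exact_mod_cast hle n hn0

/-- torsion groups with a generalised Golod-Shafarevich presentation have infinite subgroups of
infinite index -/
theorem ggs_group [Fact p.Prime] (hG : IsPGroup p G) {d : ℕ}
    (φ : FreeGroup (Fin d) →* G) (hφ : Function.Surjective φ) (e : Fin d → ℕ+)
    {ι : Type*} (ρ : ι → FreeGroup (Fin d)) (deg : ι → ℕ+)
    (hker : φ.ker = normalClosure (Set.range ρ))
    (hdeg : ∀ i, MonoidAlgebra.of (ZMod p) (FreeGroup (Fin d)) (ρ i) - 1 ∈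
      W p FreeGroup.of e (deg i)) {t : ℝ} (ht : 0 < t) (ht1 : t < 1)
    (hsum : Summable fun i => t ^ (deg i : ℕ))
    (hgs : 1 + ∑' i, t ^ (deg i : ℕ) ≤ ∑ j, t ^ (e j : ℕ)) :
    ∃ H : Subgroup G, (H : Set G).Infinite ∧ H.index = 0 := by
  by_contra hcon
  push Not at hcon
  have hfin : ∀ H : Subgroup G, (H : Set G).Finite ∨ H.index ≠ 0 := by
    intro H
    by_cases h : (H : Set G).Finite
    · exact Or.inl h
    · exact Or.inr (hcon H h)
  have hfinite : ∀ n : ℕ, 0 < n →
      Module.Finite (ZMod p) (MonoidAlgebra (ZMod p) G ⧸ (Aug p G) ^ n) := fun n hn =>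
    finite_quot φ hφ hn
  have hinv : 1 < 1 / t := by rw [lt_div_iff₀ ht]; linarith
  set c : ℝ := (1 + 1 / t) / 2 with hc
  have hc1 : 1 < c := by rw [hc]; linarith
  have hct : c * t < 1 := by
    rw [hc]
    have : (1 + 1 / t) / 2 * t = (t + 1) / 2 := by field_simp
    rw [this]; linarith
  have hct0 : 0 ≤ c * t := by positivity
  have h1 := growth_subexp' hG hfinite hfin hc1
  apply ggs_unbounded φ hφ e ρ deg hker hdeg ht ht1 hsum hgs
  set b : ℕ → ℝ := fun m => (wgrowth p (fun j => φ (FreeGroup.of j)) e m : ℝ) * t ^ m with hb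
  have hb0 : ∀ m, 0 ≤ b m := fun m => mul_nonneg (Nat.cast_nonneg _) (pow_pos ht m).le
  have hsummable : Summable b := by
    have hg : Summable fun m : ℕ => c * (c * t) ^ m :=
      (summable_geometric_of_lt_one hct0 hct).mul_left c
    refine Summable.of_norm_bounded_eventually_nat hg ?_
    have h2 := (tendsto_add_atTop_nat 1).eventually h1
    filter_upwards [h2] with m hm
    rw [Real.norm_of_nonneg (hb0 m)]
    have h3 : (wgrowth p (fun j => φ (FreeGroup.of j)) e m : ℝ) ≤ growth p G (m + 1) := by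
      exact_mod_cast (finite_W (p := p) φ hφ e m).2
    have h4 : (wgrowth p (fun j => φ (FreeGroup.of j)) e m : ℝ) ≤ c ^ (m + 1) := h3.trans hm.le
    calc b m ≤ c ^ (m + 1) * t ^ m := mul_le_mul_of_nonneg_right h4 (pow_pos ht m).le
      _ = c * (c * t) ^ m := by rw [mul_pow, pow_succ]; ring
  exact ⟨∑' m, b m, fun N => hsummable.sum_le_tsum _ (fun m _ => hb0 m)⟩

end Pool.Agent.H67.PG
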